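import Pool.Agent.Q284.GE.Stm

/-!
# Project GE: further statements of lemma jobs
-/

set_option autoImplicit false

open Finset Polynomial ComplexConjugate
open Pool.Agent.H341R2.Sharp (Mon)

namespace Pool.Agent.Q284.GE

open Pool.Agent.Q284.PS (Prim Hay CM PD PI qq)

/-- **EUC** (absolute convergence of the Euler product).  Uses PLB.  Proof.  `m = j + 1`.  The `P ∈ PD m` of degree
`m` (`k = 1`): at most `q^m` of them, `|v P 1| ≤ q^(-δ m)`, contribution `≤ q^((1 - δ - σ) m)`.  The others have degree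
`d ≤ m/2`, `k = m/d ≥ 2`, `k ≤ m`: `|v P k| ≤ (m + 1)^e q^(ϑ m)`, and their number is at most
`∑_{P ∈ PD m, deg P < m} deg P ≤ 2 q^(m/2)` (PLB), contribution `≤ 2 (m + 1)^e q^((1/2 + ϑ - σ) m)`.  Both are summable
(`q ≥ 2`, negative exponents; `summable_pow_mul_geometric_of_norm_lt_one` for the polynomial factor). -/
def S_EUC : Prop := ∀ (F : Type) [Field F] [Fintype F] (e : ℕ) (v : F[X] → ℕ → ℝ) (δ ϑ σ : ℝ), 0 ≤ ϑ →
  1 - δ < σ → 1 / 2 + ϑ < σ →
  (∀ P : F[X], P.Monic → Irreducible P → |v P 1| ≤ qq F ^ (-(δ * P.natDegree)) ∧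
    ∀ k : ℕ, |v P k| ≤ ((k : ℝ) + 1) ^ e * (qq F ^ (ϑ * P.natDegree)) ^ k) →
  Summable (fun j : ℕ => (∑ P ∈ PD F (j + 1), |v P ((j + 1) / P.natDegree)|) * (qq F ^ (-σ)) ^ (j + 1))

end Pool.Agent.Q284.GE
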