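import Pool.Agent.Q284.GE.Gen
import Pool.Agent.Q284.GE.Stm2
import Pool.Agent.Q284.PX.Ass3

/-!
# Project GE: from the engine to Euler products
-/

set_option autoImplicit false

open Finset Polynomial ComplexConjugate
open Pool.Agent.H341R2.Sharp (Mon mem_Mon)

namespace Pool.Agent.Q284.GE

open Pool.Agent.Q284.PS (Prim Hay CM PD PI qq mem_PI norm_le_one Place absPow Nice Tempered RankinSelbergConverges
  hay_cm)
open Pool.Agent.Q284.PX (AF ef Ls gen_nice ef_zero absPow_eq norm_z SelfDual)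

/-- the Riemann hypothesis: all zeros are on the line `Re s = 1/2` -/
def RiemannHypothesis (L : ℂ → ℂ) : Prop := ∀ s : ℂ, L s = 0 → s.re = 1 / 2

section Gen

variable {F : Type} [Field F] [Fintype F]

/-- the coefficients of the `L`-series from the normalised polynomial -/
theorem ef_eq (hLGD : S_LGD) (hM : PX.S_AFM) {v p : F[X] → ℕ → ℝ} (hv : ∀ P : F[X], v P 0 = 1)
    (hvp : ∀ P : F[X], P.Monic → Irreducible P → ∀ k : ℕ, 1 ≤ k →
      (k : ℝ) * v P k = ∑ m ∈ Icc 1 k, p P m * v P (k - m))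
    {χ : F[X] → ℂ} (hχ : CM χ) {b : ℂ[X]} (hb0 : b.coeff 0 = 1) {S : ℕ → ℂ} (hS : ∀ m, 1 ≤ m →
      S m * (Real.sqrt (qq F) : ℂ) ^ m =
        ∑ P ∈ PD F m, (P.natDegree : ℂ) * (p P (m / P.natDegree) : ℂ) * χ P ^ (m / P.natDegree))
    (hN : ∀ N : ℕ, Newt S b N) (n : ℕ) : ef v χ n = (Real.sqrt (qq F) : ℂ) ^ n * b.coeff n := by
  induction n using Nat.strong_induction_on with
  | _ n ih =>
    rcases Nat.eq_zero_or_pos n with rfl | hn
    · rw [ef_zero hM hv hχ.1, pow_zero, hb0, one_mul]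
    · have h1 := hLGD F v p hv hvp χ hχ n hn
      have h2 := hN n n hn le_rfl
      have hn0 : (n : ℂ) ≠ 0 := by exact_mod_cast hn.ne'
      apply mul_left_cancel₀ hn0
      rw [h1]
      have h3 : (n : ℂ) * ((Real.sqrt (qq F) : ℂ) ^ n * b.coeff n) =
          (Real.sqrt (qq F) : ℂ) ^ n * ((n : ℂ) * b.coeff n) := by ring
      rw [h3, h2, mul_sum]
      apply sum_congr rfl
      intro m hm
      rw [mem_Icc] at hm
      rw [ih (n - m) (by omega), ← hS m hm.1]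
      have h4 : (Real.sqrt (qq F) : ℂ) ^ n = (Real.sqrt (qq F) : ℂ) ^ m * (Real.sqrt (qq F) : ℂ) ^ (n - m) := by
        rw [← pow_add]
        congr 1
        omega
      rw [h4]
      ring

/-- the functional equation and the Riemann hypothesis -/
theorem nice_rh {q : ℕ} (hq : 2 ≤ q) {D : ℕ} {ε : ℂ} (hε : ‖ε‖ = 1) {b : ℂ[X]} (hb : Uni D ε b) {e : ℕ → ℂ}
    (he : ∀ n, e n = (Real.sqrt q : ℂ) ^ n * b.coeff n) :
    Nice q D ε (Ls q D e) ∧ RiemannHypothesis (Ls q D e) := by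
  have hq0 : (0 : ℝ) < (q : ℝ) := by exact_mod_cast (by omega : 0 < q)
  have hqC : (q : ℂ) = (((q : ℝ) : ℝ) : ℂ) := by push_cast; rfl
  constructor
  · apply gen_nice (by omega) hε
    · rw [he, hb.zero]
      simp
    · intro n m hnm hmn
      have h1 := hb.fe m (by omega)
      have h2 : D - m = n := by omega
      rw [h2] at h1
      rw [he n, he m, h1, map_mul, map_pow, Complex.conj_ofReal]
      have h3 : (Real.sqrt q : ℂ) ^ n = (Real.sqrt q : ℂ) ^ (n - m) * (Real.sqrt q : ℂ) ^ m := by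
        rw [← pow_add]
        congr 1
        omega
      rw [h3]
      ring
  · intro s hs
    have h1 : b.eval ((Real.sqrt q : ℂ) * (q : ℂ) ^ (-s)) = 0 := by
      rw [eval_eq_sum_range, hb.deg, ← hs]
      unfold Ls
      apply sum_congr rfl
      intro k _
      rw [he k, mul_pow]
      ring
    have h2 := hb.root _ h1
    rw [norm_mul, Complex.norm_real, Real.norm_eq_abs, abs_of_nonneg (Real.sqrt_nonneg _), hqC,
      Complex.norm_cpow_eq_rpow_re_of_pos hq0, Real.sqrt_eq_rpow, ← Real.rpow_add hq0] at h2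
    have h4 : (1 : ℝ) < q := by exact_mod_cast (by omega : 1 < q)
    have h3 := congrArg Real.log h2
    rw [Real.log_rpow hq0, Real.log_one] at h3
    have h5 : Real.log q ≠ 0 := (Real.log_pos h4).ne'
    have h6 := (mul_eq_zero.1 h3).resolve_right h5
    rw [Complex.neg_re] at h6
    linarith

/-- the Euler product -/
theorem euler (hEUL : PS.S_EUL) (hDSUM : PS.S_DSUM) (hM : PX.S_AFM) (hMAS : S_MAS) (hEUC : S_EUC) {e : ℕ}
    {v : F[X] → ℕ → ℝ} (hv : ∀ P : F[X], v P 0 = 1) {δ ϑ : ℝ} (hϑ : 0 ≤ ϑ)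
    (hvb : ∀ P : F[X], P.Monic → Irreducible P → |v P 1| ≤ qq F ^ (-(δ * P.natDegree)) ∧
      ∀ k : ℕ, |v P k| ≤ ((k : ℝ) + 1) ^ e * (qq F ^ (ϑ * P.natDegree)) ^ k)
    {χ : F[X] → ℂ} (hcm : CM χ) (hchi : ∀ f : F[X], ‖χ f‖ ≤ 1) {D : ℕ}
    (hz : ∀ n : ℕ, D < n → ef v χ n = 0) {s : ℂ} (hs1 : 1 - δ < s.re) (hs2 : 1 / 2 + ϑ < s.re) {G : Place F → ℂ}
    (hG : ∀ P : Place F, HasSum (fun k : ℕ => (v P.1 k : ℂ) * (χ P.1 * absPow P.1 s) ^ k) (G P)) :
    HasProd G (Ls (Fintype.card F) D (ef v χ) s) := by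
  classical
  have hq2 := two_le_qq (F := F)
  have hq0 : 0 < qq F := by linarith
  set z : ℂ := (Fintype.card F : ℂ) ^ (-s) with hzd
  have hznorm : ‖z‖ = qq F ^ (-s.re) := norm_z hq0 s
  have hsum0 := hMAS F v hv (qq F ^ (-s.re)) (by positivity) (hEUC F e v δ ϑ s.re hϑ hs1 hs2 hvb)
  have hsum : Summable (fun k : ℕ => (∑ f ∈ Mon F k, ‖(AF v f : ℂ) * χ f‖) * ‖z‖ ^ k) := by
    refine Summable.of_nonneg_of_le (fun k => by positivity) (fun k => ?_) hsum0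
    rw [hznorm]
    apply mul_le_mul_of_nonneg_right _ (by positivity)
    apply sum_le_sum
    intro f _
    rw [norm_mul, Complex.norm_real, Real.norm_eq_abs]
    have := hchi f
    have h4 := abs_nonneg (AF v f)
    nlinarith
  obtain ⟨h1, h2⟩ := hDSUM F (fun f => (AF v f : ℂ) * χ f) z hsum
  obtain ⟨m1, m2, m3, _, _⟩ := hM F v hv
  have h3 := hEUL F (fun f => (AF v f : ℂ) * χ f * z ^ f.natDegree) (by
      simp [m1, hcm.1]) (by
      intro f h hf hh hfh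
      rw [m2 f h hf hh hfh, hcm.2 f h hf hh, hf.natDegree_mul hh, pow_add]
      push_cast
      ring) h1
  have h4 : ∑' f : {f : F[X] // f.Monic}, (AF v f.1 : ℂ) * χ f.1 * z ^ f.1.natDegree =
      Ls (Fintype.card F) D (ef v χ) s := by
    rw [h2]
    rw [tsum_eq_sum (s := range (D + 1))]
    · rfl
    · intro k hk
      rw [mem_range, not_lt] at hk
      have : ∑ f ∈ Mon F k, (AF v f : ℂ) * χ f = 0 := hz k (by omega)
      rw [this, zero_mul]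
  rw [h4] at h3
  refine (congrArg (fun G => HasProd G (Ls (Fintype.card F) D (ef v χ) s)) ?_).mpr h3
  funext P'
  have h5 := hG P'
  obtain ⟨P, hP1, hP2⟩ := P'
  have h6 : (fun k : ℕ => (AF v (P ^ k) : ℂ) * χ (P ^ k) * z ^ (P ^ k).natDegree) =
      fun k : ℕ => (v P k : ℂ) * (χ P * absPow P s) ^ k := by
    funext k
    rw [m3 P k hP1 hP2, PS.cm_pow hcm hP1, hP1.natDegree_pow, mul_pow, absPow_eq,
      mul_comm k P.natDegree, pow_mul]
    ring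
  show G ⟨P, hP1, hP2⟩ = ∑' k : ℕ, (AF v (P ^ k) : ℂ) * χ (P ^ k) * z ^ (P ^ k).natDegree
  rw [h6, h5.tsum_eq]

end Gen

/-- the engine for families of local parameters `γ i P x y` -/
def ENG : Prop := ∀ (r₀ B ϑ : ℝ) (K : ℕ), Par r₀ B ϑ K → r₀ ≤ 1 → ∃ M₀ : ℕ, 3 ≤ M₀ ∧
  ∀ (F : Type) [Field F] [Fintype F] (ι : Type) (p : ι → F[X] → (ι → ℝ) → ℕ → ℝ), Loc F ι r₀ B ϑ K p →
  ∀ (Y : ι → Type) [∀ i, Fintype (Y i)] (γ : (i : ι) → F[X] → (ι → ℝ) → Y i → ℂ),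
  (∀ (i : ι) (P : F[X]) (x : ι → ℝ), P.Monic → Irreducible P → (∀ j, |x j| ≤ r₀) →
    (∀ y, ‖γ i P x y‖ ≤ qq F ^ (ϑ * P.natDegree)) ∧ ∀ k : ℕ, 1 ≤ k → ∑ y, γ i P x y ^ k = (p i P x k : ℂ)) →
  ∀ (ν M : ℕ), 9 ≤ ν → M₀ ≤ M → ∀ (D : ι → (F[X] → ℂ) → ℕ) (ε : ι → (F[X] → ℂ) → ℂ), Dat F ι ν M D ε →
  ∃ a : F[X] → ι → ℝ, (∀ (P : F[X]) (i : ι), P.Monic → Irreducible P →
      |a P i| ≤ r₀ ∧ |a P i| ≤ r₀ * qq F ^ (-(9 / 10 * eta ν * P.natDegree))) ∧
    ∀ (i : ι) (Q : F[X]) (l : ℕ) (χ : F[X] → ℂ), Prim Q l χ → ∃ L : ℂ → ℂ,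
      Nice (Fintype.card F) (D i χ) (ε i χ) L ∧ RiemannHypothesis L ∧
      ∀ s : ℂ, 1 - 9 / 10 * eta ν < s.re → 1 / 2 + ϑ < s.re →
        HasProd (fun P : Place F => ∏ y, (1 - γ i P.1 (a P.1) y * (χ P.1 * absPow P.1 s))⁻¹) (L s)

theorem t_eng (hGEN : GEN) (hLGD : S_LGD) (hM : PX.S_AFM) (hEUL : PS.S_EUL) (hDSUM : PS.S_DSUM) (hMAS : S_MAS)
    (hEUC : S_EUC) (hPSG : S_PSG) : ENG := by
  classical
  intro r₀ B ϑ K hpar hr1
  obtain ⟨M₀, hM3, hGEN⟩ := hGEN r₀ B ϑ K hpar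
  refine ⟨M₀, hM3, ?_⟩
  intro F _ _ ι p hloc Y _ γ hγ ν M hν hMM D ε hdat
  obtain ⟨a, ha, hmain⟩ := hGEN F ι p hloc ν M hν hMM D ε hdat
  refine ⟨a, ha, ?_⟩
  intro i Q l χ hχ
  have hq2 := two_le_qq (F := F)
  have hq0 : 0 < qq F := by linarith
  obtain ⟨b, hb, hN⟩ := hmain i Q l χ hχ
  have hv : ∀ P : F[X], ∃ v : ℕ → ℝ, v 0 = 1 ∧ (P.Monic → Irreducible P →
      (∀ k : ℕ, 1 ≤ k → (k : ℝ) * v k = ∑ m ∈ Icc 1 k, p i P (a P) m * v (k - m)) ∧
      (∀ k : ℕ, |v k| ≤ ((k : ℝ) + 1) ^ Fintype.card (Y i) * (qq F ^ (ϑ * P.natDegree)) ^ k) ∧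
      ∀ w : ℂ, ‖w‖ * qq F ^ (ϑ * P.natDegree) < 1 →
        HasSum (fun k : ℕ => (v k : ℂ) * w ^ k) (∏ y, (1 - γ i P (a P) y * w)⁻¹)) := by
    intro P
    by_cases h : P.Monic ∧ Irreducible P
    · obtain ⟨h1, h2⟩ := hγ i P (a P) h.1 h.2 (fun j => (ha P j h.1 h.2).1)
      obtain ⟨v, v0, v1, v2, v3⟩ := hPSG (Y i) (γ i P (a P)) (fun k => p i P (a P) k)
        (qq F ^ (ϑ * P.natDegree)) (Real.rpow_pos_of_pos hq0 _) h1 h2
      exact ⟨v, v0, fun _ _ => ⟨v1, v2, v3⟩⟩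
    · exact ⟨fun k => if k = 0 then 1 else 0, by simp, fun h1 h2 => absurd ⟨h1, h2⟩ h⟩
  choose v v0 hv using hv
  have hcm := hay_cm hχ.1
  have hef := ef_eq hLGD hM (v := v) (p := fun P k => p i P (a P) k) v0
    (fun P h1 h2 => (hv P h1 h2).1) hcm hb.zero (S := ps p a i χ) (by
      intro m hm
      have hsq : (Real.sqrt (qq F) : ℂ) ^ m ≠ 0 := by
        apply pow_ne_zero
        have : 0 < Real.sqrt (qq F) := Real.sqrt_pos.2 hq0
        exact_mod_cast this.ne'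
      unfold ps
      rw [div_mul_cancel₀ _ hsq]) hN
  have hqq : Real.sqrt (qq F) = Real.sqrt ((Fintype.card F : ℕ) : ℝ) := rfl
  obtain ⟨n1, n2⟩ := nice_rh (q := Fintype.card F) Fintype.one_lt_card (hdat.eps i χ) hb
    (e := ef v χ) (fun n => by rw [hef n, hqq])
  refine ⟨_, n1, n2, ?_⟩
  intro s hs1 hs2
  have hchi := norm_le_one hχ.1
  refine euler hEUL hDSUM hM hMAS hEUC (e := Fintype.card (Y i)) v0 (δ := 9 / 10 * eta ν) hpar.t0 ?_ hcm hchi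
    ?_ hs1 hs2 ?_
  · intro P h1 h2
    refine ⟨?_, (hv P h1 h2).2.1⟩
    have h3 := (hv P h1 h2).1 1 le_rfl
    have h4 : v P 1 = a P i := by
      rw [Icc_self, sum_singleton, Nat.sub_self, v0 P, mul_one, Nat.cast_one, one_mul] at h3
      rw [h3]
      exact hloc.one i P (a P) h1 h2 (fun j => (ha P j h1 h2).1)
    rw [h4]
    refine (ha P i h1 h2).2.trans ?_
    have h5 : 0 ≤ qq F ^ (-(9 / 10 * eta ν * P.natDegree)) := by positivity
    nlinarith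
  · intro n hn
    rw [hef n, coeff_eq_zero_of_natDegree_lt (by rw [hb.deg]; exact hn), mul_zero]
  · rintro ⟨P, h1, h2⟩
    apply (hv P h1 h2).2.2
    have h3 := PX.chi_abs_le hq0 hchi P s
    have h4 : (1 : ℝ) ≤ P.natDegree := by exact_mod_cast h2.natDegree_pos
    calc ‖χ P * absPow P s‖ * qq F ^ (ϑ * P.natDegree) ≤
        qq F ^ (-s.re * P.natDegree) * qq F ^ (ϑ * P.natDegree) :=
          mul_le_mul_of_nonneg_right h3 (by positivity)
      _ = qq F ^ ((ϑ - s.re) * P.natDegree) := by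
          rw [← Real.rpow_add hq0]
          congr 1
          ring
      _ < 1 := by
          apply Real.rpow_lt_one_of_one_lt_of_neg (by linarith)
          nlinarith

end Pool.Agent.Q284.GE
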