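import Pool.Agent.Q284.GE.Defs

/-!
# Project GE: statements of the lemma jobs

The doc comment of every `S_...` is its complete proof.  Notation: `q = qq F = #F`, `r = √q`, `|χ| ≤ 1`.
-/

set_option autoImplicit false

open Finset Polynomial ComplexConjugate
open Pool.Agent.H341R2.Sharp (Mon)

namespace Pool.Agent.Q284.GE

open Pool.Agent.Q284.PS (Prim Hay CM PD PI qq)

/-! ## Sums over primes -/

/-- **PLB** (number of primes).  Uses `PS.S_CPR`.  Proof.  `∑_{P ∈ PD j} deg P = q^j` (CPR).  The `P ∈ PD j` of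
degree `j` are those of `PI j`, the others have degree `d ≤ j/2`, `d ∣ j`, `d |PI d| ≤ q^d` (CPR for `d`).
First claim.  Second: `j |PI j| ≥ q^j - ∑_{d ∣ j, d < j} q^d`.  `j = 1`: `q`.  `j = 2, 3`: `q^j - q ≥ q^j/2`.
`j ≥ 4`: `∑_{1 ≤ d ≤ j/2} q^d ≤ 2 q^(j/2)` (natural division), and `2 q^⌊j/2⌋ ≤ q^j/2` as `q^(j - ⌊j/2⌋) ≥ 4`.
Third: `∑_{d ∣ j, d < j} q^d ≤ 2 q^⌊j/2⌋ ≤ 2 r^j`. -/
def S_PLB : Prop := ∀ (F : Type) [Field F] [Fintype F] (j : ℕ), 1 ≤ j →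
  (j * (PI F j).card ≤ Fintype.card F ^ j) ∧ (Fintype.card F ^ j ≤ 2 * j * (PI F j).card) ∧
  ∑ P ∈ (open Classical in (PD F j).filter (fun P => P.natDegree < j)), (P.natDegree : ℝ) ≤
    2 * Real.sqrt (qq F) ^ j

/-- **WPR** (Weil's bound for primes).  Uses `WE.S_WEI`, `PS.S_UNI`, PLB.  Proof.  `ψ f = χ f * conj (χ' f)` satisfies
`Hay (Q * Q') (max l l') ψ` (`f` is prime to `Q Q'` iff it is prime to `Q` and to `Q'`; `Q Q' ∣ f - g` implies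
`Q ∣ f - g` and `Q' ∣ f - g`, the same for the powers of `X`).  As `χ ≠ χ'`, by UNI there is a monic `h` with
`χ h ≠ 0`, `χ' h ≠ 0`, `χ h ≠ χ' h`; then `h` is prime to `Q Q'` and `ψ h ≠ 1` (`|χ' h| = 1`), so `NonPr (Q Q') ψ`.
WEI: `‖trc ψ j‖ ≤ (deg Q + deg Q' + max l l') r^j`.  `trc ψ j = j ∑_{P ∈ PI j} ψ P + ∑_{P ∈ PD j, deg P < j} ...`, the
last sum is at most `2 r^j` by PLB. -/
def S_WPR : Prop := ∀ (F : Type) [Field F] [Fintype F] (Q Q' : F[X]) (l l' : ℕ) (χ χ' : F[X] → ℂ),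
  Prim Q l χ → Prim Q' l' χ' → χ ≠ χ' → ∀ j : ℕ, 1 ≤ j →
  ‖∑ P ∈ PI F j, χ P * conj (χ' P)‖ * j ≤
    (Q.natDegree + l + Q'.natDegree + l' + 2 : ℝ) * Real.sqrt (qq F) ^ j

/-- **GSL** (solution of the linear equations).  Uses WPR.  Library: Mathlib `det_ne_zero_of_sum_row_lt_diag`
(Gershgorin) or a direct argument with the largest `|λ ψ|`.  Proof.  Let `π = |PI j|`,
`G χ ψ = ∑_{P ∈ PI j} χ P conj (ψ P)` for `χ, ψ ∈ C`.  For `χ ≠ ψ`: `j ‖G χ ψ‖ ≤ (2 c₀ + 2) r^j` (WPR).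
`G χ χ = #{P ∈ PI j : χ P ≠ 0}` (`|χ P| ∈ {0, 1}`), the `P` with `χ P = 0` divide `Q`, they are different monic
primes of degree `j`, so there are at most `deg Q/j ≤ c₀/j` of them.  So by hypothesis
`|G χ χ| - ∑_{ψ ≠ χ} |G χ ψ| ≥ π - c₀/j - #C (2 c₀ + 2) r^j/j ≥ π/2`, and if `C` is not empty then `π/2 > 0`.  So the
matrix is invertible, and the solution `λ` of `∑_ψ G χ ψ λ ψ = t χ` (`χ ∈ C`) has `|λ ψ| ≤ T/(π/2) = 2T/π` (take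
the row of the largest `|λ χ|`).  Symmetry: `λ' ψ = conj (λ (conj ψ))` is also a solution
(`conj (G χ ψ) = G (conj χ) (conj ψ)`, `t (conj χ) = conj (t χ)`), so `λ' = λ`.  Then
`x P = ∑_{ψ ∈ C} λ ψ conj (ψ P)` is real: `conj (x P) = ∑ conj (λ ψ) ψ P = ∑ λ (conj ψ) ψ P = x P`; take
`x P = re (...)`.  `|x P| ≤ #C 2T/π`.  `∑_P x P χ P = ∑_ψ λ ψ ∑_P χ P conj (ψ P)`, which is `t χ` for `χ ∈ C`, and at
most `#C (2T/π) (deg Q + l + c₀ + 2) r^j/j` for a primitive `χ ∉ C` by WPR. -/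
def S_GSL : Prop := ∀ (F : Type) [Field F] [Fintype F] (j c₀ : ℕ) (C : Finset (F[X] → ℂ)) (T : ℝ)
  (t : (F[X] → ℂ) → ℂ), 1 ≤ j →
  (∀ χ ∈ C, ∃ (Q : F[X]) (l : ℕ), Prim Q l χ ∧ Q.natDegree + l ≤ c₀) →
  (∀ χ ∈ C, (fun f => conj (χ f)) ∈ C) →
  (C.card : ℝ) * (2 * c₀ + 2) * Real.sqrt (qq F) ^ j / j + c₀ / j + (PI F j).card / 2 ≤ (PI F j).card →
  (∀ χ ∈ C, ‖t χ‖ ≤ T ∧ t (fun f => conj (χ f)) = conj (t χ)) →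
  ∃ x : F[X] → ℝ, (∀ χ ∈ C, ∑ P ∈ PI F j, (x P : ℂ) * χ P = t χ) ∧
    (∀ P, |x P| ≤ C.card * (2 * T / (PI F j).card)) ∧
    ∀ (Q : F[X]) (l : ℕ) (χ : F[X] → ℂ), Prim Q l χ → χ ∉ C →
      ‖∑ P ∈ PI F j, (x P : ℂ) * χ P‖ ≤
        C.card * (2 * T / (PI F j).card) * (Q.natDegree + l + c₀ + 2) * Real.sqrt (qq F) ^ j / j

/-- **CN2** (number of the characters).  Uses `PS.S_CNT`.  Proof.  Let `N = 2j/ν + 1` (natural division), so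
`ν (deg Q + max M (l+1) - 2) ≤ 2j` implies `deg Q + max M (l+1) ≤ 2j/ν + 2`, i.e. `deg Q + max (M-1) l ≤ N`
(`M ≥ 3`).  The set is contained in the image of the finite set of CNT (`L0 = M - 1`) under `(Q, l, χ) ↦ χ`, so it
is finite and `ncard * q^(M-1) ≤ 4 q^(2N)`, `2N ≤ 4j/ν + 2` (real division), so `ncard ≤ 4 q^(4j/ν + 3 - M)`. -/
def S_CN2 : Prop := ∀ (F : Type) [Field F] [Fintype F] (ν M j : ℕ), 1 ≤ ν → 3 ≤ M →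
  {χ : F[X] → ℂ | ∃ (Q : F[X]) (l : ℕ), Prim Q l χ ∧ ν * (Q.natDegree + max M (l + 1) - 2) ≤ 2 * j}.Finite ∧
  ({χ : F[X] → ℂ | ∃ (Q : F[X]) (l : ℕ), Prim Q l χ ∧ ν * (Q.natDegree + max M (l + 1) - 2) ≤ 2 * j}.ncard : ℝ) ≤
    4 * qq F ^ (4 * (j : ℝ) / ν + 3 - M)

/-- **RPW** (the prime powers).  Uses PLB (first claim: `d |PI d| ≤ q^d`).  Proof.  Group the `P ∈ PD m` with
`deg P < m` by `d = deg P`, `d ∣ m`, `k = m/d ≥ 2`; `|χ P| ≤ 1` (from `Hay`, see `PS.norm_le_one` in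
`Pool/Agent/Q284/PS/Basic.lean`).  The sum over the `P` of degree `d` is at most `q^d max |p i P (a P) k|`.
(i) `k < K`: by `Loc.mid` with `t = al q ν M d` (`≤ r₀`): `|p| ≤ B al q ν M d ≤ B 48 d q^(3 - M - η d)` (also if
`al = 0`; `η = eta ν ≥ 1/18`).  For `k = 2` we get `q^(m/2) B 24 m q^(3-M-η m/2) ≤ q^(m/2) 24 B m q^(3-M-κ m)`
(`η/2 ≥ 1/36 ≥ κ`).  For `k ≥ 3`: `q^(m/k) B 48 (m/k) q^(3-M) ≤ q^(m/3) 16 B m q^(3-M) ≤ q^(m/2) 16 B m q^(3-M-κ m)`.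
At most `m` values of `k`: together `≤ (24 m + 16 m²) B q^(3-M-κ m) q^(m/2) ≤ 72 B m² q^(3-M-κ m) q^(m/2)`.
(ii) `k ≥ K`: `|p| ≤ B q^(ϑ m)` (`Loc.all`, `k deg P = m`; `|a P j| ≤ al ≤ r₀`): `q^(m/k) B q^(ϑ m) ≤
B q^(m/K + ϑ m) ≤ B q^(m/2) q^(-κ m)` since `κ ≤ 1/2 - ϑ - 1/K`, at most `m` values of `k`. -/
def S_RPW : Prop := ∀ (r₀ B ϑ : ℝ) (K : ℕ), Par r₀ B ϑ K → ∀ (F : Type) [Field F] [Fintype F] (ι : Type)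
  (p : ι → F[X] → (ι → ℝ) → ℕ → ℝ), Loc F ι r₀ B ϑ K p → ∀ ν M : ℕ, 9 ≤ ν → 3 ≤ M →
  (∀ j : ℕ, 1 ≤ j → al (qq F) ν M j ≤ r₀) → ∀ (a : F[X] → ι → ℝ) (m : ℕ), 1 ≤ m →
  (∀ (P : F[X]) (i : ι), P.Monic → Irreducible P → P.natDegree < m → |a P i| ≤ al (qq F) ν M P.natDegree) →
  ∀ (i : ι) (χ : F[X] → ℂ), (∀ f, ‖χ f‖ ≤ 1) →
    ‖pw p a i χ m‖ ≤ Rm (qq F) B (kap ϑ K) M m * Real.sqrt (qq F) ^ m

/-! ## Polynomials with all roots on the unit circle -/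

/-- **CIR** (symmetrisation).  Proof.  `b = ∑_{2n < D} A_n X^n + ∑_{n ≤ D, 2n > D} ε conj (A_(D-n)) X^n`, i.e.
`b(z) = A(z) + ε A*(z)`, `A*(z) = ∑_n conj (A_n) z^(D-n)`.  `b_0 = 1`, `b_D = ε ≠ 0` (`D ≥ 1`), degree `D`, `fe`:
clear (`ε conj ε = 1`; for `2k = D` both sides are `0`).  Zeros: on `|z| = 1`, `|A*(z)| = |z^D conj (A(z))| = |A(z)|`.
`A` has no zeros in the closed unit disk, so `h = A*/A` is continuous on the closed disk, holomorphic in the open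
disk, `|h| = 1` on the circle, `h(0) = 0` (`A*_0 = 0`, as `A_D = 0`), so `|h(z)| ≤ |z| < 1` in the open disk
(Schwarz lemma or maximum principle: `Complex.dist_le_...`, `Complex.norm_le_of_forall_mem_frontier_norm_le`,
equality in the interior would make `h` constant), so `b(z) ≠ 0` for `|z| < 1`.  For `|z| > 1`:
`b(z) = ε z^D conj (b(1/conj z))` (from `fe`), so `b(z) ≠ 0`. -/
def S_CIR : Prop := ∀ (D : ℕ) (ε : ℂ) (A : ℂ[X]), 1 ≤ D → ‖ε‖ = 1 → A.coeff 0 = 1 →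
  (∀ n : ℕ, D ≤ 2 * n → A.coeff n = 0) → (∀ z : ℂ, ‖z‖ ≤ 1 → A.eval z ≠ 0) →
  ∃ b : ℂ[X], Uni D ε b ∧ (∀ n : ℕ, 2 * n < D → b.coeff n = A.coeff n) ∧ ∀ n : ℕ, 2 * n = D → b.coeff n = 0

/-- **EXPO** (truncated exponential).  Proof.  `L(z) = ∑_{m ≥ 1, 2m < D} s_m z^m/m`, `E(z) = exp (L(z))` is entire; let
`e_n` be its Taylor coefficients at `0`: `e_0 = 1` and from `E' = L' E`: `n e_n = ∑_{m ∈ Icc 1 n, 2m < D} s_m e_(n-m)`.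
(Alternative: define the `e_n` by the recursion `n e_n = ∑_{m ∈ Icc 1 n} s'_m e_(n-m)`, `s'_m = s_m` if `2m < D`,
`0` otherwise; comparison with the nonnegative coefficients `E_n` of `exp (∑ |s'_m| z^m/m)`:
`|e_n| ≤ E_n`, `∑ E_n ρ^n = exp (∑ |s'_m| ρ^m/m)`.)  Let `Λ(x) = ∑_{2m < D} |s_m| x^m/m`.  `|e_n| ≤ exp (Λ(ρ)) ρ^(-n)`
(Cauchy's estimate).  `A = ∑_{2n < D} e_n X^n`.  For `|z| ≤ 1`: `|E(z)| ≥ exp (-Λ(1))`,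
`|E(z) - A(z)| ≤ ∑_{2n ≥ D} exp (Λ(ρ)) ρ^(-n) ≤ exp (Λ(ρ)) ρ^(-D/2) ρ/(ρ-1)`, and this is `< exp (-Λ(1))` by the
hypothesis (`∑ (|s_m|/m)(1 + ρ^m) = Λ(1) + Λ(ρ)`).  So `A(z) ≠ 0`. -/
def S_EXPO : Prop := ∀ (D : ℕ) (s : ℕ → ℂ) (ρ : ℝ), 1 ≤ D → 1 < ρ →
  (∑ m ∈ (Icc 1 D).filter (fun m => 2 * m < D), ‖s m‖ / m * (1 + ρ ^ m)) + Real.log (ρ / (ρ - 1)) <
    (D : ℝ) / 2 * Real.log ρ →
  ∃ A : ℂ[X], A.coeff 0 = 1 ∧ (∀ n : ℕ, D ≤ 2 * n → A.coeff n = 0) ∧ (∀ z : ℂ, ‖z‖ ≤ 1 → A.eval z ≠ 0) ∧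
    ∀ n : ℕ, 1 ≤ n → 2 * n < D → (n : ℂ) * A.coeff n = ∑ m ∈ Icc 1 n, s m * A.coeff (n - m)

/-- **TGT** (power sums of the roots).  Proof.  `ℂ` is algebraically closed: `b = ∏_{j < D} (1 - ζ_j X)`
(`b(0) = 1`; the `ζ_j` are the inverses of the roots, so `|ζ_j| = 1`).  `s_m = - ∑_j ζ_j^m`, `|s_m| ≤ D`; Newton's
identities (from `X b' = - b ∑_j ζ_j X/(1 - ζ_j X)`, as power series). -/
def S_TGT : Prop := ∀ (D : ℕ) (ε : ℂ) (b : ℂ[X]), Uni D ε b →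
  (∃ ζ : Fin D → ℂ, (∀ j, ‖ζ j‖ = 1) ∧ b = ∏ j, (1 - C (ζ j) * X)) ∧
  ∃ s : ℕ → ℂ, (∀ m : ℕ, 1 ≤ m → ‖s m‖ ≤ D) ∧ ∀ N : ℕ, Newt s b N

/-! ## Numerical lemma -/

/-- **NUM**.  All exponents decay: `eta ν ≥ 1/18` for `ν ≥ 9`, and `q ≥ 2`, `3 - M ≤ 0`, so one may replace `q` by `2`
in the powers with negative exponents.  Proof.  (sm) `al ≤ 48 j q^(3-M-η j)`; need `48 j q^(3-M) q^(-η j/10) ≤ r₀`;
`q^(-η j/10) ≤ 2^(-j/180)`, `j 2^(-j/180) ≤ 260`, so `M ≥ 3 + log₂(48 · 260/r₀)` suffices.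
(pp) `72 B j² q^(3-M-κ j) + B j q^(-κ j) ≤ j`: `j ≥ 9(M-2)/2`, `B 2^(-κ j) ≤ 1/2`, `72 B j 2^(3-M) 2^(-κ j) ≤ 1/2` for
large `M` (`j 2^(-κ j)` is bounded).
(dd) `16 · 2^(3-M) 2^(-j/18) (4j/9 + 4) + 4 (2j/9 + 1) 2^(-j) ≤ 1`, for large `M` (`j ≥ 9(M-2)/2`).
(est) `ρ = q^(κ/2)`; for `m ≥ 1`: `(x_m/m)(1 + ρ^m) ≤ 2 q^(κ m/2) (Lm + Rm)/m ≤
2^(3-M) (96 (c + 2m/9 + 3) 2^(-m/24) + 144 B m 2^(-κ m/2)) + 2 B 2^(-κ m/2)` (`-1/18 + κ/2 ≤ -1/24`).  With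
`S_i = ∑_m m^i 2^(-κ m/2)`, `S'_i = ∑_m m^i 2^(-m/24)` (finite) the sum is at most
`2^(3-M) (96 (c + 3) S'_0 + 22 S'_1 + 144 B S_1) + 2 B S_0`; `log (ρ/(ρ-1)) ≤ log (1/(1 - 2^(-κ/2)))`; the right side
is `(D/4) κ log q ≥ (D/4) κ log 2`; `c ≤ D/9 + 1`, `D ≥ 9 (M - 2)`.  For large `M` the coefficient of `D`
on the left is at most `κ/50`, and the constant terms are at most `D κ/50`. -/
def S_NUM : Prop := ∀ r₀ B κ : ℝ, 0 < r₀ → 0 ≤ B → 0 < κ → κ ≤ 1 / 36 → ∃ M₀ : ℕ, 3 ≤ M₀ ∧ ∀ M : ℕ, M₀ ≤ M →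
  ∀ (q : ℝ) (ν : ℕ), 2 ≤ q → 9 ≤ ν → Num q r₀ B κ ν M

/-! ## Euler products -/

/-- **LGD** (logarithmic derivative).  Library: `Pool/Agent/H435R3/Weil/LFun.lean` (`n_mul_AL`, the case `v = 1`, for
the bijection), `S_AFM` and its proof.  Proof.  For monic `f` of degree `n`: `n = ∑_{P ∣ f} deg P k_P`, `k_P` the
exponent of `P` in `f`.  `k_P v P k_P = ∑_{m=1}^{k_P} p P m v P (k_P - m)`, and `v P (k_P - m)` times the product of the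
other local coefficients of `f` is `AF v (f/P^m)`; `χ f = χ P^m χ (f/P^m)`.  So
`n AF v f χ f = ∑_{P, m ≥ 1, P^m ∣ f} deg P p P m χ P^m AF v (f/P^m) χ (f/P^m)`.  Sum over `f ∈ Mon n`:
`f = P^m g ↔ g ∈ Mon (n - m deg P)`, so for every `P`, `m` with `m deg P = j ≤ n` we get
`deg P p P m χ P^m ef v χ (n - j)`; the pairs `(P, m)` with `m deg P = j` are the `P ∈ PD j`, `m = j/deg P`. -/
def S_LGD : Prop := ∀ (F : Type) [Field F] [Fintype F] (v p : F[X] → ℕ → ℝ), (∀ P : F[X], v P 0 = 1) →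
  (∀ P : F[X], P.Monic → Irreducible P → ∀ k : ℕ, 1 ≤ k →
    (k : ℝ) * v P k = ∑ m ∈ Icc 1 k, p P m * v P (k - m)) →
  ∀ χ : F[X] → ℂ, CM χ → ∀ n : ℕ, 1 ≤ n → (n : ℂ) * PX.ef v χ n =
    ∑ m ∈ Icc 1 n, (∑ P ∈ PD F m, (P.natDegree : ℂ) * (p P (m / P.natDegree) : ℂ) * χ P ^ (m / P.natDegree)) *
      PX.ef v χ (n - m)

/-- **MAS** (absolute convergence).  Uses `PX.S_AFM` (the function `|AF v|` is `PS.NMul`) and `PS.S_REC`.  Proof.  Let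
`M_n = ∑_{f ∈ Mon n} |AF v f|`, `Z_j = ∑_{P ∈ PD j} |v P (j/deg P)|`, `M_0 = 1`.  By REC `n M_n ≤ ∑_{j=1}^n j Z_j M_(n-j)`.
Let `e_n` be the coefficients of `exp (∑_j Z_j T^j)`: `n e_n = ∑_{j=1}^n j Z_j e_(n-j)`, `e_0 = 1`, so `M_n ≤ e_n` by
induction, and `∑_{n ≤ N} e_n x^n ≤ exp (∑_j Z_j x^j)`: for the partial sums `U_N = ∑_{n ≤ N} M_n x^n` one may also
use: `g(y) = ∑_{n ≤ N} M_n y^n` satisfies `y g'(y) ≤ (∑_j j Z_j y^j) g(y)` for `0 ≤ y ≤ x`, so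
`log g(x) ≤ ∑_j Z_j x^j`.  So the partial sums are bounded. -/
def S_MAS : Prop := ∀ (F : Type) [Field F] [Fintype F] (v : F[X] → ℕ → ℝ), (∀ P : F[X], v P 0 = 1) →
  ∀ x : ℝ, 0 ≤ x → Summable (fun j : ℕ => (∑ P ∈ PD F (j + 1), |v P ((j + 1) / P.natDegree)|) * x ^ (j + 1)) →
  Summable (fun k : ℕ => (∑ f ∈ Mon F k, |PX.AF v f|) * x ^ k)

/-- **PSG** (the coefficients of the local factor from the power sums; the proof of `PX.S_PSH`,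
`Pool/Agent/*/PX/PSH.lean`, with radius `ρ` instead of `1`).  The power series `∏_x (1 - γ_x X)⁻¹` has coefficients
`H_k`, it converges for `‖w‖ ρ < 1` to the product, and `X H' = H ∑_x γ_x X/(1 - γ_x X)`, i.e.
`k H_k = ∑_{i=1}^k p_i H_(k-i)`; all `H_k` are real: `h k = (H_k).re`.  `|h k| ≤ (k + 1)^(#X) ρ^k`: `H_k` is the sum of
the monomials of degree `k` in the `γ_x`, at most `(k+1)^(#X)` many. -/
def S_PSG : Prop := ∀ (X : Type) [Fintype X] (γ : X → ℂ) (p : ℕ → ℝ) (ρ : ℝ), 0 < ρ → (∀ x, ‖γ x‖ ≤ ρ) →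
  (∀ k : ℕ, 1 ≤ k → ∑ x, γ x ^ k = (p k : ℂ)) → ∃ h : ℕ → ℝ, h 0 = 1 ∧
    (∀ k : ℕ, 1 ≤ k → (k : ℝ) * h k = ∑ i ∈ Icc 1 k, p i * h (k - i)) ∧
    (∀ k : ℕ, |h k| ≤ ((k : ℝ) + 1) ^ Fintype.card X * ρ ^ k) ∧
    ∀ w : ℂ, ‖w‖ * ρ < 1 → HasSum (fun k : ℕ => (h k : ℂ) * w ^ k) (∏ x, (1 - γ x * w)⁻¹)

/-! ## Local factors -/

/-- elementary symmetric function `e_k` of the numbers `α j` -/
noncomputable def esym {n : ℕ} (α : Fin n → ℂ) (k : ℕ) : ℂ := ∑ S ∈ powersetCard k (univ : Finset (Fin n)), ∏ j ∈ S, α j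

/-- **LFA** (self-dual unitary classes with prescribed `e_k`, `1 ≤ k < n/2`).  Uses CIR, TGT.  `ι = Fin ((n-1)/2)`, the
index `i` stands for `k = i + 1`, so `2k < n`.  Proof.  Let `A = 1 + ∑_{1 ≤ k, 2k < n} (-1)^k x_k X^k`: on `|z| ≤ 1`
`|A(z)| ≥ 1 - ∑ |x_k| ≥ 1/2`.  CIR with `D = n`, `ε = (-1)^n`: `b` with `Uni n ((-1)^n) b`, coefficients
`b_k = (-1)^k x_k`, `b_(n-k) = (-1)^n b_k`, `b_n = (-1)^n`, `b_(n/2) = 0`, all real.  TGT: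
`b = ∏_{j : Fin n} (1 - α_j X)`, `‖α_j‖ = 1`.  `esym α k = (-1)^k b_k` (`Finset.prod_one_sub...` or
`MvPolynomial`/`Multiset.prod_X_sub...`; expand `∏ (1 - α_j X)` with `Finset.prod_add`/`prod_one_sub`-type
formula); `∏ α_j = (-1)^n b_n = 1`.  Real coefficients: conjugating `b(w)`, `∏ (1 - conj α_j w) = ∏ (1 - α_j w)`; then
the power sums and the `esym (α^m) k` are real (the `conj α_j` are a permutation of the `α_j`).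
`e_k(α²)`, `1 ≤ k`, `2k < n`: `b(X) b(-X) = ∏ (1 - α_j² X²)`, compare the coefficients of `X^(2k)`:
`(-1)^k esym (α²) k = ∑_{i+j=2k} b_i (-1)^j b_j`; since `0 < 2k < n`, `i` and `j` cannot both be in `{0, n}`, so in each
of the `2k + 1 ≤ n` terms one factor is a `b_i` with `0 < i < n`, of absolute value `≤ t`, and the other one has
absolute value `≤ 1`: `|e_k(α²)| ≤ n t`.  `|esym (α^m) k| ≤ 2^n` as there are at most `2^n` sets. -/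
def S_LFA : Prop := ∀ n : ℕ, 3 ≤ n → ∀ x : Fin ((n - 1) / 2) → ℝ, (∀ i, |x i| ≤ 1 / (2 * n)) →
  ∃ α : Fin n → ℂ, (∀ j, ‖α j‖ = 1) ∧ ∏ j, α j = 1 ∧
    (∀ w : ℂ, ∏ j, (1 - conj (α j) * w) = ∏ j, (1 - α j * w)) ∧
    (∀ i : Fin ((n - 1) / 2), esym α (i.1 + 1) = (x i : ℂ)) ∧
    (∀ (k m : ℕ), (esym (fun j => α j ^ m) k).im = 0 ∧ ‖esym (fun j => α j ^ m) k‖ ≤ 2 ^ n) ∧
    ∀ (t : ℝ), (∀ i, |x i| ≤ t) → t ≤ 1 → ∀ i : Fin ((n - 1) / 2), ‖esym (fun j => α j ^ 2) (i.1 + 1)‖ ≤ n * t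

/-- **LFB** (one prescribed trace, all power sums small up to `n - 2`).  Uses CIR, TGT.  Proof.  As LFA with
`A = 1 - x X` (`|x| ≤ 1/2`, `n ≥ 3`): `b = 1 - x X + (-1)^n (X^n - x X^(n-1))`, `b = ∏ (1 - α_j X)`.  Newton's
identities: `- X b'/b = ∑_k p_k X^k`, `p_k = ∑ α_j^k`; modulo `X^(n-1)`: `b ≡ 1 - x X`, so `p_k = x^k` for
`1 ≤ k ≤ n - 2`. -/
def S_LFB : Prop := ∀ n : ℕ, 3 ≤ n → ∀ x : ℝ, |x| ≤ 1 / 2 → ∃ α : Fin n → ℂ, (∀ j, ‖α j‖ = 1) ∧ ∏ j, α j = 1 ∧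
    (∀ w : ℂ, ∏ j, (1 - conj (α j) * w) = ∏ j, (1 - α j * w)) ∧
    (∀ k : ℕ, 1 ≤ k → k ≤ n - 2 → ∑ j, α j ^ k = ((x ^ k : ℝ) : ℂ)) ∧ ∀ k : ℕ, (∑ j, α j ^ k).im = 0

/-- **RSQ** (convergence of the Rankin-Selberg product; compare `PS.S_RSP` and its proof
`Pool/Agent/*/PS/RSP.lean`).  Proof.  `x = |P|^(-s)`, `|x| = q^(-σ deg P) ≤ 2^(-1/2)`.
`∏_{i,j} (1 - α_i (conj α_j) x)⁻¹ = 1 + |∑ α|² x + O(x²)` with a constant depending on `n` only, so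
`‖factor - 1‖ ≤ q^(-2δ deg P) q^(-σ deg P) + C_n q^(-2σ deg P)`; there are at most `q^k` primes of degree `k`,
`2δ + σ > 1` and `2σ > 1`. -/
def S_RSQ : Prop := ∀ (F : Type) [Field F] [Fintype F] (n : ℕ) (δ : ℝ) (α : F[X] → Fin n → ℂ), 0 ≤ δ →
  (∀ P : F[X], P.Monic → Irreducible P → (∀ j, ‖α P j‖ = 1) ∧
    ‖∑ j, α P j‖ ≤ qq F ^ (-(δ * P.natDegree))) →
  ∀ s : ℂ, 1 / 2 < s.re → 1 - 2 * δ < s.re → Summable (fun P : {P : F[X] // P.Monic ∧ Irreducible P} =>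
    ‖(∏ i, ∏ j, (1 - α P.1 i * conj (α P.1 j) * (qq F : ℂ) ^ (-s * P.1.natDegree))⁻¹) - 1‖)

end Pool.Agent.Q284.GE
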