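import Pool.Agent.Q284.GE.Ass

/-!
# Project GE: all fundamental representations at once
-/

set_option autoImplicit false

open Finset Polynomial ComplexConjugate
open Pool.Agent.H341R2.Sharp (Mon mem_Mon)

namespace Pool.Agent.Q284.GE

open Pool.Agent.Q284.PS (Prim Hay CM PD PI qq mem_PI norm_le_one Place absPow Nice Tempered RankinSelbergConverges
  hay_cm)
open Pool.Agent.Q284.PX (SelfDual)

section Defs

variable {F : Type} [Field F] [Fintype F] {n : ℕ}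

/-- the local factor at the place `P` of `L(s, Λ^k Π ⊗ χ)` for the Satake parameters `α P j` of `Π_P` -/
noncomputable def extFactor (k : ℕ) (α : F[X] → Fin n → ℂ) (χ : F[X] → ℂ) (s : ℂ) (P : Place F) : ℂ :=
  ∏ S ∈ powersetCard k (univ : Finset (Fin n)), (1 - (∏ j ∈ S, α P.1 j) * (χ P.1 * absPow P.1 s))⁻¹

end Defs

/-- the final statement for the exterior powers -/
def FundStm : Prop := ∀ n : ℕ, 3 ≤ n → ∃ M₀ : ℕ, 3 ≤ M₀ ∧ ∀ (F : Type) [Field F] [Fintype F], ∀ ν M : ℕ, 9 ≤ ν →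
  M₀ ≤ M → ∀ (D : ℕ → (F[X] → ℂ) → ℕ) (ε : ℕ → (F[X] → ℂ) → ℂ),
  (∀ (k : ℕ) (Q : F[X]) (l : ℕ) (χ : F[X] → ℂ), 1 ≤ k → 2 * k < n → Prim Q l χ →
    ν * (Q.natDegree + max M (l + 1) - 2) ≤ D k χ ∧ D k (fun f => conj (χ f)) = D k χ) →
  (∀ k χ, ‖ε k χ‖ = 1) → (∀ k χ, ε k (fun f => conj (χ f)) = conj (ε k χ)) →
  ∃ α : F[X] → Fin n → ℂ, Tempered α ∧ SelfDual α ∧
    (∀ P : F[X], P.Monic → Irreducible P → ∀ k : ℕ, 1 ≤ k → 2 * k < n →
      ‖esym (α P) k‖ ≤ (Fintype.card F : ℝ) ^ (-(9 / 10 * (1 / 2 - 4 / (ν : ℝ)) * P.natDegree))) ∧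
    (∀ s : ℂ, 1 / 2 < s.re → 1 - 9 / 5 * (1 / 2 - 4 / (ν : ℝ)) < s.re → RankinSelbergConverges α s) ∧
    ∀ k : ℕ, 1 ≤ k → 2 * k < n → ∀ (Q : F[X]) (l : ℕ) (χ : F[X] → ℂ), Prim Q l χ → ∃ L : ℂ → ℂ,
      Nice (Fintype.card F) (D k χ) (ε k χ) L ∧ RiemannHypothesis L ∧
      ∀ s : ℂ, 1 - 9 / 10 * (1 / 2 - 4 / (ν : ℝ)) < s.re → HasProd (extFactor k α χ s) (L s)

theorem esym_pow_sum {n : ℕ} (α : Fin n → ℂ) (k m : ℕ) :
    ∑ S : {S : Finset (Fin n) // S ∈ powersetCard k (univ : Finset (Fin n))}, (∏ j ∈ S.1, α j) ^ m =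
      esym (fun j => α j ^ m) k := by
  classical
  unfold esym
  rw [← sum_coe_sort (powersetCard k (univ : Finset (Fin n)))]
  apply sum_congr rfl
  intro S _
  rw [prod_pow]

theorem t_fund (hENG : ENG) (hLFA : S_LFA) (hRSQ : S_RSQ) : FundStm := by
  classical
  intro n hn
  have hn0 : (0 : ℝ) < n := by exact_mod_cast (by omega : 0 < n)
  have hn3 : (3 : ℝ) ≤ n := by exact_mod_cast hn
  set r₀ : ℝ := 1 / (2 * n) with hr₀
  have hr0 : 0 < r₀ := by positivity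
  have hr1 : r₀ ≤ 1 := by
    rw [hr₀, div_le_one (by positivity)]
    linarith
  obtain ⟨M₀, hM3, hENG⟩ := hENG r₀ (2 ^ n) 0 3 ⟨hr0, by positivity, le_rfl, le_rfl, by norm_num⟩ hr1
  refine ⟨M₀, hM3, ?_⟩
  intro F _ _ ν M hν hM D ε hD hε hεc
  have hq2 := two_le_qq (F := F)
  have hq0 : 0 < qq F := by linarith
  -- the classes
  have hex : ∀ x : Fin ((n - 1) / 2) → ℝ, ∃ α : Fin n → ℂ, (∀ i, |x i| ≤ r₀) →
      (∀ j, ‖α j‖ = 1) ∧ ∏ j, α j = 1 ∧
      (∀ w : ℂ, ∏ j, (1 - conj (α j) * w) = ∏ j, (1 - α j * w)) ∧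
      (∀ i : Fin ((n - 1) / 2), esym α (i.1 + 1) = (x i : ℂ)) ∧
      (∀ (k m : ℕ), (esym (fun j => α j ^ m) k).im = 0 ∧ ‖esym (fun j => α j ^ m) k‖ ≤ 2 ^ n) ∧
      ∀ (t : ℝ), (∀ i, |x i| ≤ t) → t ≤ 1 → ∀ i : Fin ((n - 1) / 2),
        ‖esym (fun j => α j ^ 2) (i.1 + 1)‖ ≤ n * t := by
    intro x
    by_cases h : ∀ i, |x i| ≤ r₀
    · obtain ⟨α, h1⟩ := hLFA n hn x h
      exact ⟨α, fun _ => h1⟩
    · exact ⟨fun _ => 1, fun h' => absurd h' h⟩
  choose A hA using hex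
  let ι := Fin ((n - 1) / 2)
  let i₀ : ι := ⟨0, by omega⟩
  let p : ι → F[X] → (ι → ℝ) → ℕ → ℝ := fun i _ x k => (esym (fun j => A x j ^ k) (i.1 + 1)).re
  have hreal : ∀ (x : ι → ℝ), (∀ i, |x i| ≤ r₀) → ∀ (i : ι) (k : ℕ),
      esym (fun j => A x j ^ k) (i.1 + 1) = (((esym (fun j => A x j ^ k) (i.1 + 1)).re : ℝ) : ℂ) := by
    intro x hx i k
    apply Complex.ext
    · rw [Complex.ofReal_re]
    · rw [Complex.ofReal_im]
      exact ((hA x hx).2.2.2.2.1 _ _).1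
  have hloc : Loc F ι r₀ (2 ^ n) 0 3 p := by
    refine ⟨?_, ?_, ?_⟩
    · intro i P x _ _ hx
      show (esym (fun j => A x j ^ 1) (i.1 + 1)).re = x i
      have h1 := (hA x hx).2.2.2.1 i
      simp only [pow_one]
      rw [h1, Complex.ofReal_re]
    · intro i P x k t _ _ ht hx h2 h3
      have hk : k = 2 := by omega
      subst hk
      show |(esym (fun j => A x j ^ 2) (i.1 + 1)).re| ≤ 2 ^ n * t
      refine (Complex.abs_re_le_norm _).trans ?_
      refine ((hA x (fun j => (hx j).trans ht)).2.2.2.2.2 t hx (ht.trans hr1) i).trans ?_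
      have ht0 : 0 ≤ t := (abs_nonneg _).trans (hx i₀)
      apply mul_le_mul_of_nonneg_right _ ht0
      exact_mod_cast (Nat.lt_two_pow_self (n := n)).le
    · intro i P x k _ _ hx _
      rw [zero_mul, Real.rpow_zero, mul_one]
      exact (Complex.abs_re_le_norm _).trans ((hA x hx).2.2.2.2.1 _ _).2
  let Y : ι → Type := fun i => {S : Finset (Fin n) // S ∈ powersetCard (i.1 + 1) (univ : Finset (Fin n))}
  letI hYf : ∀ i, Fintype (Y i) := fun i =>
    Finset.Subtype.fintype (powersetCard (i.1 + 1) (univ : Finset (Fin n)))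
  let γ : (i : ι) → F[X] → (ι → ℝ) → Y i → ℂ := fun i _ x S => ∏ j ∈ S.1, A x j
  have hγ : ∀ (i : ι) (P : F[X]) (x : ι → ℝ), P.Monic → Irreducible P → (∀ j, |x j| ≤ r₀) →
      (∀ y, ‖γ i P x y‖ ≤ qq F ^ ((0 : ℝ) * P.natDegree)) ∧
        ∀ k : ℕ, 1 ≤ k → ∑ y, γ i P x y ^ k = (p i P x k : ℂ) := by
    intro i P x _ _ hx
    constructor
    · intro S
      rw [zero_mul, Real.rpow_zero]
      show ‖∏ j ∈ S.1, A x j‖ ≤ 1
      rw [norm_prod, prod_eq_one]
      intro j _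
      exact (hA x hx).1 j
    · intro k _
      show ∑ S : {S : Finset (Fin n) // S ∈ powersetCard (i.1 + 1) (univ : Finset (Fin n))},
        (∏ j ∈ S.1, A x j) ^ k = (((esym (fun j => A x j ^ k) (i.1 + 1)).re : ℝ) : ℂ)
      rw [esym_pow_sum, ← hreal x hx i k]
  have hdat : Dat F ι ν M (fun i χ => D (i.1 + 1) χ) (fun i χ => ε (i.1 + 1) χ) := by
    refine ⟨?_, ?_, ?_, ?_⟩
    · intro i Q l χ hχ
      exact (hD (i.1 + 1) Q l χ (by omega) (by have := i.2; omega) hχ).1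
    · intro i Q l χ hχ
      exact (hD (i.1 + 1) Q l χ (by omega) (by have := i.2; omega) hχ).2
    · intro i χ
      exact hε _ χ
    · intro i χ
      exact hεc _ χ
  obtain ⟨a, ha, hmain⟩ := hENG F ι p hloc Y γ hγ ν M hν hM _ _ hdat
  have har : ∀ P : F[X], P.Monic → Irreducible P → ∀ i, |a P i| ≤ r₀ := fun P h1 h2 i => (ha P i h1 h2).1
  have hes : ∀ P : F[X], P.Monic → Irreducible P → ∀ k : ℕ, 1 ≤ k → 2 * k < n →
      ‖esym (A (a P)) k‖ ≤ (Fintype.card F : ℝ) ^ (-(9 / 10 * (1 / 2 - 4 / (ν : ℝ)) * P.natDegree)) := by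
    intro P h1 h2 k hk1 hk2
    let i : ι := ⟨k - 1, by omega⟩
    have h3 : esym (A (a P)) k = (a P i : ℂ) := by
      have := (hA (a P) (har P h1 h2)).2.2.2.1 i
      have e : i.1 + 1 = k := Nat.sub_add_cancel hk1
      rw [e] at this
      exact this
    rw [h3, Complex.norm_real, Real.norm_eq_abs]
    refine (ha P i h1 h2).2.trans ?_
    have h5 : 0 ≤ qq F ^ (-(9 / 10 * eta ν * P.natDegree)) := by positivity
    have h6 : r₀ * qq F ^ (-(9 / 10 * eta ν * P.natDegree)) ≤ qq F ^ (-(9 / 10 * eta ν * P.natDegree)) := by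
      nlinarith
    exact h6
  refine ⟨fun P => A (a P), ?_, ?_, hes, ?_, ?_⟩
  · intro P h1 h2
    exact ⟨(hA (a P) (har P h1 h2)).1, (hA (a P) (har P h1 h2)).2.1⟩
  · intro P h1 h2
    exact (hA (a P) (har P h1 h2)).2.2.1
  · intro s hs1 hs2
    have hη := eta_pos hν
    have h1 := hRSQ F n (9 / 10 * eta ν) (fun P => A (a P)) (by positivity) (by
      intro P h1 h2
      refine ⟨(hA (a P) (har P h1 h2)).1, ?_⟩
      have h3 := hes P h1 h2 1 le_rfl (by omega)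
      have h4 : esym (A (a P)) 1 = ∑ j, A (a P) j := by
        unfold esym
        rw [powersetCard_one, sum_map]
        apply sum_congr rfl
        intro j _
        simp
      rw [h4] at h3
      exact h3) s hs1 (by
        have : 1 - 9 / 5 * (1 / 2 - 4 / (ν : ℝ)) = 1 - 2 * (9 / 10 * eta ν) := by
          unfold eta
          ring
        linarith)
    have hqC : ((qq F : ℝ) : ℂ) = (Fintype.card F : ℂ) := by
      unfold qq
      simp
    rw [hqC] at h1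
    exact h1
  · intro k hk1 hk2 Q l χ hχ
    let i : ι := ⟨k - 1, by omega⟩
    have e : i.1 + 1 = k := Nat.sub_add_cancel hk1
    obtain ⟨L, h1, h2, h3⟩ := hmain i Q l χ hχ
    have h1' : Nice (Fintype.card F) (D k χ) (ε k χ) L := by
      have := h1
      simp only [e] at this
      exact this
    refine ⟨L, h1', h2, ?_⟩
    intro s hs
    have h4 := h3 s hs (by
      have : 4 / (ν : ℝ) ≥ 0 := by positivity
      linarith)
    refine (congrArg (fun G => HasProd G (L s)) ?_).mp h4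
    funext P
    unfold extFactor
    rw [← e]
    exact prod_coe_sort (powersetCard (i.1 + 1) (univ : Finset (Fin n)))
      (fun S => (1 - (∏ j ∈ S, A (a P.1) j) * (χ P.1 * absPow P.1 s))⁻¹)

end Pool.Agent.Q284.GE
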