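import Pool.Agent.Q284.GE.Ass

/-!
# Project GE: prescribed Ramanujan exponents at all places, with the Riemann hypothesis for all twists
-/

set_option autoImplicit false

open Finset Polynomial ComplexConjugate
open Pool.Agent.H341R2.Sharp (Mon mem_Mon)

namespace Pool.Agent.Q284.GE

open Pool.Agent.Q284.PS (Prim Hay CM PD PI qq mem_PI norm_le_one Place absPow Nice Tempered hay_cm)
open Pool.Agent.Q284.PX (SelfDual stFactor)

/-- the final statement for the exponents -/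
def ExpStm : Prop := ∀ (g : ℕ) (δ : ℝ), 4 ≤ g → 0 < δ → ∃ M₀ : ℕ, 3 ≤ M₀ ∧ ∀ (F : Type) [Field F] [Fintype F]
  (θ : F[X] → ℝ), (∀ P, 0 ≤ θ P ∧ θ P ≤ 1 / 2 - 1 / ((g : ℝ) - 1) - δ) → ∀ ν M : ℕ, 9 ≤ ν → M₀ ≤ M →
  ∀ (D : (F[X] → ℂ) → ℕ) (ε : (F[X] → ℂ) → ℂ),
  (∀ (Q : F[X]) (l : ℕ) (χ : F[X] → ℂ), Prim Q l χ →
    ν * (Q.natDegree + max M (l + 1) - 2) ≤ D χ ∧ D (fun f => conj (χ f)) = D χ) →
  (∀ χ, ‖ε χ‖ = 1) → (∀ χ, ε (fun f => conj (χ f)) = conj (ε χ)) →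
  ∃ β : F[X] → Fin g → ℂ, Tempered β ∧ SelfDual β ∧
    ∀ (Q : F[X]) (l : ℕ) (χ : F[X] → ℂ), Prim Q l χ → ∃ L : ℂ → ℂ,
      Nice (Fintype.card F) (D χ) (ε χ) L ∧ RiemannHypothesis L ∧
      ∀ s : ℂ, 1 - 9 / 10 * (1 / 2 - 4 / (ν : ℝ)) < s.re → 1 - 1 / ((g : ℝ) - 1) - δ < s.re →
        HasProd (stFactor θ β χ s) (L s)

theorem t_exp (hENG : ENG) (hLFB : S_LFB) : ExpStm := by
  classical
  intro g δ hg hδ
  have hg0 : (4 : ℝ) ≤ g := by exact_mod_cast hg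
  have hg1 : (0 : ℝ) < (g : ℝ) - 1 := by linarith
  set ϑ : ℝ := 1 / 2 - 1 / ((g : ℝ) - 1) - δ with hϑ
  rcases lt_or_ge ϑ 0 with hneg | hpos
  · refine ⟨3, le_rfl, ?_⟩
    intro F _ _ θ hθ
    exfalso
    have := hθ 0
    linarith
  have hK : ((g - 1 : ℕ) : ℝ) = (g : ℝ) - 1 := by
    rw [Nat.cast_sub (by omega)]
    push_cast
    ring
  have hpar : Par (1 / 2) (2 * g) ϑ (g - 1) := by
    refine ⟨by norm_num, by positivity, hpos, by omega, ?_⟩
    rw [hK, hϑ]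
    have : ((g : ℝ) - 1) * (1 / 2 - (1 / 2 - 1 / ((g : ℝ) - 1) - δ)) = 1 + ((g : ℝ) - 1) * δ := by
      field_simp
      ring
    rw [this]
    have := mul_pos hg1 hδ
    linarith
  obtain ⟨M₀, hM3, hENG⟩ := hENG (1 / 2) (2 * g) ϑ (g - 1) hpar (by norm_num)
  refine ⟨M₀, hM3, ?_⟩
  intro F _ _ θ hθ ν M hν hM D ε hD hε hεc
  have hq2 := two_le_qq (F := F)
  have hq0 : 0 < qq F := by linarith
  have hq1 : 1 ≤ qq F := by linarith
  let y : F[X] → ℝ := fun P => qq F ^ (θ P * P.natDegree)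
  have hy1 : ∀ P, 1 ≤ y P := by
    intro P
    apply Real.one_le_rpow hq1
    have := (hθ P).1
    positivity
  have hy0 : ∀ P, 0 < y P := fun P => lt_of_lt_of_le one_pos (hy1 P)
  have hyi : ∀ P, 0 < (y P)⁻¹ ∧ (y P)⁻¹ ≤ 1 := fun P => ⟨inv_pos.2 (hy0 P), inv_le_one_of_one_le₀ (hy1 P)⟩
  have hyk : ∀ (P : F[X]) (k : ℕ), y P ^ k ≤ qq F ^ (ϑ * (k * P.natDegree)) := by
    intro P k
    show (qq F ^ (θ P * P.natDegree)) ^ k ≤ _
    rw [← Real.rpow_natCast (qq F ^ (θ P * P.natDegree)) k, ← Real.rpow_mul hq0.le]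
    apply Real.rpow_le_rpow_of_exponent_le hq1
    have h1 := (hθ P).2
    have h2 : (0 : ℝ) ≤ (k : ℝ) * P.natDegree := by positivity
    calc θ P * P.natDegree * k = θ P * (k * P.natDegree) := by ring
      _ ≤ ϑ * (k * P.natDegree) := mul_le_mul_of_nonneg_right h1 h2
  -- `(y^k + y^(-k)) ≤ (y + y⁻¹)^k`
  have hadd : ∀ (P : F[X]) (k : ℕ), 1 ≤ k → y P ^ k + (y P)⁻¹ ^ k ≤ (y P + (y P)⁻¹) ^ k := by
    intro P k hk
    induction k, hk using Nat.le_induction with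
    | base => simp
    | succ k hk ih =>
      have h1 := (hyi P).1.le
      have h2 := (hy0 P).le
      have h3 : 0 ≤ y P ^ k := pow_nonneg h2 k
      have h4 : 0 ≤ (y P)⁻¹ ^ k := pow_nonneg h1 k
      calc y P ^ (k + 1) + (y P)⁻¹ ^ (k + 1) ≤ (y P ^ k + (y P)⁻¹ ^ k) * (y P + (y P)⁻¹) := by
            rw [pow_succ, pow_succ]
            nlinarith [mul_nonneg h3 h1, mul_nonneg h4 h2]
        _ ≤ (y P + (y P)⁻¹) ^ k * (y P + (y P)⁻¹) := mul_le_mul_of_nonneg_right ih (by linarith)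
        _ = (y P + (y P)⁻¹) ^ (k + 1) := by rw [pow_succ]
  -- the classes
  have hex : ∀ x : ℝ, ∃ α : Fin g → ℂ, |x| ≤ 1 / 2 → (∀ j, ‖α j‖ = 1) ∧ ∏ j, α j = 1 ∧
      (∀ w : ℂ, ∏ j, (1 - conj (α j) * w) = ∏ j, (1 - α j * w)) ∧
      (∀ k : ℕ, 1 ≤ k → k ≤ g - 2 → ∑ j, α j ^ k = ((x ^ k : ℝ) : ℂ)) ∧ ∀ k : ℕ, (∑ j, α j ^ k).im = 0 := by
    intro x
    by_cases h : |x| ≤ 1 / 2
    · obtain ⟨α, h1⟩ := hLFB g (by omega) x h
      exact ⟨α, fun _ => h1⟩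
    · exact ⟨fun _ => 1, fun h' => absurd h' h⟩
  choose A hA using hex
  let bb : F[X] → ℝ → ℝ := fun P x => x / (y P + (y P)⁻¹)
  have hbb : ∀ (P : F[X]) (x : ℝ), |x| ≤ 1 / 2 → |bb P x| ≤ 1 / 2 := by
    intro P x hx
    show |x / (y P + (y P)⁻¹)| ≤ 1 / 2
    have h1 : 1 ≤ y P + (y P)⁻¹ := by
      have := hy1 P
      have := (hyi P).1
      linarith
    rw [abs_div, abs_of_pos (by linarith : 0 < y P + (y P)⁻¹)]
    exact (div_le_self (abs_nonneg _) h1).trans hx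
  let p : Unit → F[X] → (Unit → ℝ) → ℕ → ℝ := fun _ P x k =>
    (y P ^ k + (y P)⁻¹ ^ k) * (∑ j, A (bb P (x ())) j ^ k).re
  have hpow : ∀ (P : F[X]) (x : ℝ), |x| ≤ 1 / 2 → ∀ k : ℕ, 1 ≤ k → k ≤ g - 2 →
      (∑ j, A (bb P x) j ^ k).re = bb P x ^ k := by
    intro P x hx k h1 h2
    rw [(hA _ (hbb P x hx)).2.2.2.1 k h1 h2, Complex.ofReal_re]
  have hloc : Loc F Unit (1 / 2) (2 * g) ϑ (g - 1) p := by
    refine ⟨?_, ?_, ?_⟩
    · intro i P x _ _ hx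
      show (y P ^ 1 + (y P)⁻¹ ^ 1) * (∑ j, A (bb P (x ())) j ^ 1).re = x i
      rw [hpow P (x ()) (hx ()) 1 le_rfl (by omega), pow_one, pow_one, pow_one]
      show (y P + (y P)⁻¹) * (x () / (y P + (y P)⁻¹)) = x i
      have h1 : y P + (y P)⁻¹ ≠ 0 := by
        have := hy0 P
        have := (hyi P).1
        linarith
      rw [mul_div_self' h1]
    · intro i P x k t _ _ ht hx h2 h3
      show |(y P ^ k + (y P)⁻¹ ^ k) * (∑ j, A (bb P (x ())) j ^ k).re| ≤ 2 * g * t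
      have hx' := hx ()
      have ht0 : 0 ≤ t := (abs_nonneg _).trans hx'
      rw [hpow P (x ()) (hx'.trans ht) k (by omega) (by omega), abs_mul, abs_pow]
      have h1 : 0 < y P + (y P)⁻¹ := by
        have := hy0 P
        have := (hyi P).1
        linarith
      have h4 : |bb P (x ())| = |x ()| / (y P + (y P)⁻¹) := by
        show |x () / (y P + (y P)⁻¹)| = _
        rw [abs_div, abs_of_pos h1]
      have h5 : 0 ≤ y P ^ k + (y P)⁻¹ ^ k := by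
        have := hy0 P
        have := (hyi P).1
        positivity
      rw [h4, abs_of_nonneg h5, div_pow]
      have h6 : (y P ^ k + (y P)⁻¹ ^ k) * (|x ()| ^ k / (y P + (y P)⁻¹) ^ k) ≤ |x ()| ^ k := by
        rw [mul_div_assoc', div_le_iff₀ (by positivity), mul_comm]
        exact mul_le_mul_of_nonneg_left (hadd P k (by omega)) (by positivity)
      refine h6.trans ?_
      have h7 : |x ()| ^ k ≤ |x ()| ^ 1 :=
        pow_le_pow_of_le_one (abs_nonneg _) (by linarith [hx'.trans ht]) (by omega)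
      rw [pow_one] at h7
      nlinarith
    · intro i P x k _ _ hx _
      show |(y P ^ k + (y P)⁻¹ ^ k) * (∑ j, A (bb P (x ())) j ^ k).re| ≤ 2 * g * _
      have h5 : 0 ≤ y P ^ k + (y P)⁻¹ ^ k := by
        have := hy0 P
        have := (hyi P).1
        positivity
      rw [abs_mul, abs_of_nonneg h5]
      have h6 : |(∑ j, A (bb P (x ())) j ^ k).re| ≤ g := by
        refine (Complex.abs_re_le_norm _).trans ?_
        refine (norm_sum_le _ _).trans ?_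
        rw [sum_congr rfl (fun j _ => by
          rw [norm_pow, (hA _ (hbb P (x ()) (hx ()))).1 j, one_pow])]
        simp
      have h7 : (y P)⁻¹ ^ k ≤ 1 := pow_le_one₀ (hyi P).1.le (hyi P).2
      have h8 : 1 ≤ y P ^ k := one_le_pow₀ (hy1 P)
      calc (y P ^ k + (y P)⁻¹ ^ k) * |(∑ j, A (bb P (x ())) j ^ k).re| ≤ (2 * y P ^ k) * g :=
            mul_le_mul (by linarith) h6 (abs_nonneg _) (by positivity)
        _ = 2 * g * y P ^ k := by ring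
        _ ≤ 2 * g * qq F ^ (ϑ * (k * P.natDegree)) :=
            mul_le_mul_of_nonneg_left (hyk P k) (by positivity)
  let γ : (i : Unit) → F[X] → (Unit → ℝ) → (Fin g ⊕ Fin g) → ℂ := fun _ P x =>
    Sum.elim (fun j => (y P : ℂ) * A (bb P (x ())) j) (fun j => (((y P)⁻¹ : ℝ) : ℂ) * A (bb P (x ())) j)
  have hγ : ∀ (i : Unit) (P : F[X]) (x : Unit → ℝ), P.Monic → Irreducible P → (∀ j, |x j| ≤ 1 / 2) →
      (∀ y, ‖γ i P x y‖ ≤ qq F ^ (ϑ * P.natDegree)) ∧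
        ∀ k : ℕ, 1 ≤ k → ∑ y, γ i P x y ^ k = (p i P x k : ℂ) := by
    intro i P x _ _ hx
    have h1 := hA _ (hbb P (x ()) (hx ()))
    have h2 := hyk P 1
    rw [pow_one, Nat.cast_one, one_mul] at h2
    constructor
    · rintro (j | j)
      · show ‖(y P : ℂ) * A (bb P (x ())) j‖ ≤ _
        rw [norm_mul, h1.1 j, mul_one, Complex.norm_real, Real.norm_eq_abs, abs_of_pos (hy0 P)]
        exact h2
      · show ‖(((y P)⁻¹ : ℝ) : ℂ) * A (bb P (x ())) j‖ ≤ _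
        rw [norm_mul, h1.1 j, mul_one, Complex.norm_real, Real.norm_eq_abs, abs_of_pos (hyi P).1]
        exact (hyi P).2.trans ((hy1 P).trans h2)
    · intro k _
      rw [Fintype.sum_sum_type]
      show ∑ j, ((y P : ℂ) * A (bb P (x ())) j) ^ k + ∑ j, ((((y P)⁻¹ : ℝ) : ℂ) * A (bb P (x ())) j) ^ k =
        (((y P ^ k + (y P)⁻¹ ^ k) * (∑ j, A (bb P (x ())) j ^ k).re : ℝ) : ℂ)
      simp_rw [mul_pow]
      rw [← mul_sum, ← mul_sum, ← add_mul]
      have h3 : ∑ j, A (bb P (x ())) j ^ k = (((∑ j, A (bb P (x ())) j ^ k).re : ℝ) : ℂ) := by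
        apply Complex.ext
        · rw [Complex.ofReal_re]
        · rw [Complex.ofReal_im]
          exact h1.2.2.2.2 k
      rw [h3]
      push_cast
      rfl
  have hdat : Dat F Unit ν M (fun _ χ => D χ) (fun _ χ => ε χ) :=
    ⟨fun _ Q l χ hχ => (hD Q l χ hχ).1, fun _ Q l χ hχ => (hD Q l χ hχ).2, fun _ χ => hε χ, fun _ χ => hεc χ⟩
  obtain ⟨a, ha, hmain⟩ := hENG F Unit p hloc (fun _ => Fin g ⊕ Fin g) γ hγ ν M hν hM _ _ hdat
  refine ⟨fun P => A (bb P (a P ())), ?_, ?_, ?_⟩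
  · intro P h1 h2
    have h3 := hA _ (hbb P (a P ()) (ha P () h1 h2).1)
    exact ⟨h3.1, h3.2.1⟩
  · intro P h1 h2
    exact (hA _ (hbb P (a P ()) (ha P () h1 h2).1)).2.2.1
  · intro Q l χ hχ
    obtain ⟨L, h1, h2, h3⟩ := hmain () Q l χ hχ
    refine ⟨L, h1, h2, ?_⟩
    intro s hs1 hs2
    have h4 := h3 s hs1 (by rw [hϑ]; linarith)
    refine (congrArg (fun G => HasProd G (L s)) ?_).mp h4
    funext P
    rw [Fintype.prod_sum_type]
    unfold stFactor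
    rw [prod_mul_distrib]
    rfl

end Pool.Agent.Q284.GE
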