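import Pool.Agent.Q284.GE.Ass
import Pool.Agent.Q284.PX.Ass4

/-!
# Project GE: one representation with all its abelian twists and the Riemann hypothesis
-/

set_option autoImplicit false

open Finset Polynomial ComplexConjugate
open Pool.Agent.H341R2.Sharp (Mon mem_Mon)

namespace Pool.Agent.Q284.GE

open Pool.Agent.Q284.PS (Prim Hay CM PD PI qq mem_PI norm_le_one Place absPow Nice hay_cm)
open Pool.Agent.Q284.PX (lin DN wt ch repFactor S_CHR S_BPT S_INV)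

/-- the final statement for one representation -/
def RepStm : Prop := ∀ (A : Type) [Fintype A] [DecidableEq A] (r : ℕ) (α : A → Fin r → ℝ) (a₀ : A),
  α a₀ ≠ 0 → (∀ b : A, b ≠ a₀ → LinearIndependent ℝ ![α a₀, α b]) →
  ∃ (C : ℝ) (N₀ : ℕ), ∀ N : ℕ, N₀ ≤ N → ∃ M₀ : ℕ, 3 ≤ M₀ ∧ ∀ (F : Type) [Field F] [Fintype F]
  (φ : F[X] → Fin r → ℝ), ∀ ν M : ℕ, 9 ≤ ν → M₀ ≤ M →
  ∀ (D : (F[X] → ℂ) → ℕ) (ε : (F[X] → ℂ) → ℂ),
  (∀ (Q : F[X]) (l : ℕ) (χ : F[X] → ℂ), Prim Q l χ →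
    ν * (Q.natDegree + max M (l + 1) - 2) ≤ D χ ∧ D (fun f => conj (χ f)) = D χ) →
  (∀ χ, ‖ε χ‖ = 1) → (∀ χ, ε (fun f => conj (χ f)) = conj (ε χ)) →
  ∃ ψ : F[X] → Fin r → ℝ, (∀ P : F[X], P.Monic → Irreducible P → ∀ i, |ψ P i - φ P i| ≤ C / N) ∧
    ∀ (Q : F[X]) (l : ℕ) (χ : F[X] → ℂ), Prim Q l χ → ∃ L : ℂ → ℂ,
      Nice (Fintype.card F) (D χ) (ε χ) L ∧ RiemannHypothesis L ∧
      ∀ s : ℂ, 1 - 9 / 10 * (1 / 2 - 4 / (ν : ℝ)) < s.re → HasProd (repFactor α N ψ χ s) (L s)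

theorem ch_le (hCHR : S_CHR) {A : Type} [Fintype A] {r : ℕ} (α : A → Fin r → ℝ) (N : ℕ) (φ : Fin r → ℝ) :
    |ch α N φ| ≤ ((N ^ Fintype.card A : ℕ) : ℝ) := by
  unfold ch
  rw [abs_prod]
  calc ∏ a, |DN N (lin (α a) φ)| ≤ ∏ _a : A, (N : ℝ) :=
        prod_le_prod (fun _ _ => abs_nonneg _) (fun a _ => (hCHR.1 N _).1)
    _ = ((N ^ Fintype.card A : ℕ) : ℝ) := by
        rw [prod_const, card_univ]
        push_cast
        rfl

theorem t_rep (hENG : ENG) (hCHR : S_CHR) (hBPT : S_BPT) (hINV : S_INV) : RepStm := by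
  classical
  intro A _ _ r α a₀ h0 hli
  obtain ⟨C, c, η, hC, hc, hη, hbase⟩ := hBPT A r α a₀ h0 hli
  obtain ⟨C₁, N₁, hC₁, hinv⟩ := hINV A r α a₀ η c hc hη
  set E : ℝ := ∑ i, |η i| with hE
  have hE0 : 0 ≤ E := sum_nonneg fun _ _ => abs_nonneg _
  refine ⟨C + C₁ * E, 10 + N₁, ?_⟩
  intro N hN
  have hNr : (10 : ℝ) ≤ N := by exact_mod_cast (by omega : 10 ≤ N)
  have hN0 : (0 : ℝ) < N := by linarith
  set d : ℕ := N ^ Fintype.card A with hd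
  have hd1 : 1 ≤ d := Nat.one_le_pow _ _ (by omega)
  have hdr : (1 : ℝ) ≤ d := by exact_mod_cast hd1
  set r₀ : ℝ := 1 / (1000 * (d : ℝ) ^ ((3 : ℝ) / 2)) with hr₀
  have hd32 : (1 : ℝ) ≤ (d : ℝ) ^ ((3 : ℝ) / 2) := Real.one_le_rpow hdr (by norm_num)
  have hr0 : 0 < r₀ := by positivity
  have hr1 : r₀ ≤ 1 := by
    rw [hr₀, div_le_one (by positivity)]
    linarith
  have hB0 : 0 ≤ 2 * C₁ * (d : ℝ) + d := by positivity
  obtain ⟨M₀, hM3, hENG⟩ := hENG r₀ (2 * C₁ * d + d) 0 3 ⟨hr0, hB0, le_rfl, le_rfl, by norm_num⟩ hr1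
  refine ⟨M₀, hM3, ?_⟩
  intro F _ _ φ ν M hν hM D ε hD hε hεc
  -- the base points
  choose φ₀ jj hφ₀ hj hjk hcb using fun P : F[X] => hbase N (by omega) (φ P)
  have hj1 : ∀ P, ¬ (N : ℤ) ∣ jj P := by
    intro P
    have := hjk P 1 le_rfl (by omega)
    rwa [Nat.cast_one, one_mul] at this
  have hj2 : ∀ P, ¬ (N : ℤ) ∣ ((2 : ℕ) : ℤ) * jj P := fun P => hjk P 2 (by norm_num) (by omega)
  have hex : ∀ (P : F[X]) (z : ℝ), ∃ δ : ℝ, |z| ≤ r₀ → |δ| ≤ C₁ * |z| / N ∧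
      ch α N (fun i => φ₀ P i + δ * η i) = z ∧
      ∀ k : ℕ, 1 ≤ k → ¬ (N : ℤ) ∣ (k : ℤ) * jj P →
        |ch α N (fun i => (k : ℝ) * (φ₀ P i + δ * η i))| ≤ C₁ * k * (d : ℝ) * |z| := by
    intro P z
    by_cases h : |z| ≤ r₀
    · obtain ⟨δ, h1⟩ := hinv N (by omega) (φ₀ P) (jj P) (hj P) (hj1 P) (hcb P) z h
      exact ⟨δ, fun _ => h1⟩
    · exact ⟨0, fun h' => absurd h' h⟩
  choose δ hδ using hex
  let ψ : F[X] → ℝ → Fin r → ℝ := fun P z i => φ₀ P i + δ P z * η i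
  let p : Unit → F[X] → (Unit → ℝ) → ℕ → ℝ := fun _ P x k => ch α N (fun i => (k : ℝ) * ψ P (x ()) i)
  have hloc : Loc F Unit r₀ (2 * C₁ * d + d) 0 3 p := by
    refine ⟨?_, ?_, ?_⟩
    · intro i P x _ _ hx
      show ch α N (fun i => ((1 : ℕ) : ℝ) * ψ P (x ()) i) = x i
      simp only [Nat.cast_one, one_mul]
      exact (hδ P (x ()) (hx ())).2.1
    · intro i P x k t _ _ ht hx h2 h3
      have hk : k = 2 := by omega
      subst hk
      have h4 := (hδ P (x ()) ((hx ()).trans ht)).2.2 2 (by norm_num) (hj2 P)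
      have ht0 : 0 ≤ t := (abs_nonneg _).trans (hx ())
      have h5 := hx ()
      show |ch α N (fun i => ((2 : ℕ) : ℝ) * ψ P (x ()) i)| ≤ (2 * C₁ * d + d) * t
      refine h4.trans ?_
      push_cast
      have h6 : C₁ * 2 * (d : ℝ) * |x ()| ≤ C₁ * 2 * (d : ℝ) * t :=
        mul_le_mul_of_nonneg_left h5 (by positivity)
      have h7 : 0 ≤ (d : ℝ) * t := by positivity
      linarith
    · intro i P x k _ _ hx _
      rw [zero_mul, Real.rpow_zero, mul_one]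
      refine (ch_le hCHR α N _).trans ?_
      have : 0 ≤ 2 * C₁ * (d : ℝ) := by positivity
      linarith
  let γ : (i : Unit) → F[X] → (Unit → ℝ) → (A → Fin N) → ℂ := fun _ P x y =>
    Complex.exp ((wt α N y (ψ P (x ())) : ℂ) * Complex.I)
  have hγ : ∀ (i : Unit) (P : F[X]) (x : Unit → ℝ), P.Monic → Irreducible P → (∀ j, |x j| ≤ r₀) →
      (∀ y, ‖γ i P x y‖ ≤ qq F ^ ((0 : ℝ) * P.natDegree)) ∧
        ∀ k : ℕ, 1 ≤ k → ∑ y, γ i P x y ^ k = (p i P x k : ℂ) := by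
    intro i P x _ _ hx
    constructor
    · intro y
      rw [zero_mul, Real.rpow_zero]
      exact (Complex.norm_exp_ofReal_mul_I _).le
    · intro k _
      exact hCHR.2.2.2 A r N α (ψ P (x ())) k
  have hdat : Dat F Unit ν M (fun _ χ => D χ) (fun _ χ => ε χ) :=
    ⟨fun _ Q l χ hχ => (hD Q l χ hχ).1, fun _ Q l χ hχ => (hD Q l χ hχ).2, fun _ χ => hε χ, fun _ χ => hεc χ⟩
  obtain ⟨a, ha, hmain⟩ := hENG F Unit p hloc (fun _ => A → Fin N) γ hγ ν M hν hM _ _ hdat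
  refine ⟨fun P => ψ P (a P ()), ?_, ?_⟩
  · intro P h1 h2 i
    have h3 := (ha P () h1 h2).1
    have h4 := (hδ P (a P ()) h3).1
    have h5 : |η i| ≤ E := single_le_sum (f := fun i => |η i|) (fun _ _ => abs_nonneg _) (mem_univ i)
    have h6 : |δ P (a P ())| ≤ C₁ / N := by
      refine h4.trans ?_
      apply div_le_div_of_nonneg_right _ hN0.le
      have := h3.trans hr1
      nlinarith
    have e : ψ P (a P ()) i - φ P i = (φ₀ P i - φ P i) + δ P (a P ()) * η i := by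
      show φ₀ P i + δ P (a P ()) * η i - φ P i = _
      ring
    show |ψ P (a P ()) i - φ P i| ≤ (C + C₁ * E) / N
    rw [e]
    refine (abs_add_le _ _).trans ?_
    rw [abs_mul, add_div]
    refine add_le_add (hφ₀ P i) ?_
    calc |δ P (a P ())| * |η i| ≤ C₁ / N * E := mul_le_mul h6 h5 (abs_nonneg _) (by positivity)
      _ = C₁ * E / N := by ring
  · intro Q l χ hχ
    obtain ⟨L, h1, h2, h3⟩ := hmain () Q l χ hχ
    refine ⟨L, h1, h2, ?_⟩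
    intro s hs1
    exact h3 s hs1 (by
      have : 4 / (ν : ℝ) ≥ 0 := by positivity
      linarith)

end Pool.Agent.Q284.GE
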