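import Pool.Agent.Q284.WE.All
import Pool.Agent.Q284.GE.AssA
import Pool.Agent.Q284.GE.AssB
import Pool.Agent.Q284.GE.AssR
import Pool.Agent.Q53.GE.PLB
import Pool.Agent.Q53.GE.WPR
import Pool.Agent.Q208.GE.GSL
import Pool.Agent.Q96.GE.CN2
import Pool.Agent.Q96.GE.TGT
import Pool.Agent.Q14.GE.RPW
import Pool.Agent.Q150.GE.CIR
import Pool.Agent.Q166.GE.EXPO
import Pool.Agent.Q224.GE.NUM
import Pool.Agent.Q224.GE.LGD
import Pool.Agent.Q224.GE.MAS
import Pool.Agent.Q224.GE.PSG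
import Pool.Agent.Q224.GE.EUC
import Pool.Agent.Q182.GE.LFA
import Pool.Agent.Q198.GE.LFB
import Pool.Agent.Q265.GE.RSQ
import Pool.Agent.Q284.PX.All4

/-!
# Project GE: the engine and the final statements

Plan, statements with paper proofs and assembly by helper284; lemmas by helpers 14, 53, 96, 150, 166, 182, 198, 208,
224, 265 (project GE), 24, 31, 151, 154, 190, 241, 265, 275 (Weil's bound), and for the characters helpers 53, 68, 277
(uniqueness, counting), 38, 79 (zeros of the characters of `V_((N-1)ρ)`), 92, 237 (Euler products).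
-/

set_option autoImplicit false

open Finset Polynomial ComplexConjugate

namespace Pool.Agent.Q284.GE

theorem gen : GEN := by
  have hHC := Pool.Agent.Q53.PS.t_HC
  have hCMON := Pool.Agent.Q53.PS.t_CMON
  have hVAN := Pool.Agent.Q166.PS.Van.t_VAN
  have hUNI := Pool.Agent.Q277.PS.t_UNI Pool.Agent.Q68.PS.t_CRT Pool.Agent.Q68.PS.t_ETA
  have hCNT := Pool.Agent.Q53.PS.t_CNT hHC hVAN hCMON
  have hWPR := Pool.Agent.Q53.GE.t_WPR WE.weil_hayes hUNI
  exact t_gen Pool.Agent.Q53.GE.t_PLB (Pool.Agent.Q208.GE.t_GSL hWPR) (Pool.Agent.Q96.GE.t_CN2 hCNT)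
    (Pool.Agent.Q14.GE.t_RPW Pool.Agent.Q53.GE.t_PLB) Pool.Agent.Q150.GE.t_CIR Pool.Agent.Q166.GE.t_EXPO
    Pool.Agent.Q96.GE.t_TGT Pool.Agent.Q224.GE.t_NUM

theorem eng : ENG :=
  t_eng gen Pool.Agent.Q224.GE.t_LGD Pool.Agent.Q237.PX.t_AFM Pool.Agent.Q92.PS.t_EUL Pool.Agent.Q92.PS.t_DSUM
    Pool.Agent.Q224.GE.t_MAS (Pool.Agent.Q224.GE.t_EUC Pool.Agent.Q53.GE.t_PLB) Pool.Agent.Q224.GE.t_PSG

/-- all fundamental representations -/
theorem fundStm : FundStm :=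
  t_fund eng (Pool.Agent.Q182.GE.t_LFA Pool.Agent.Q150.GE.t_CIR Pool.Agent.Q96.GE.t_TGT) Pool.Agent.Q265.GE.t_RSQ

/-- prescribed exponents -/
theorem expStm : ExpStm :=
  t_exp eng (Pool.Agent.Q198.GE.t_LFB Pool.Agent.Q150.GE.t_CIR Pool.Agent.Q96.GE.t_TGT)

/-- one representation -/
theorem repStm : RepStm :=
  t_rep eng Pool.Agent.Q79.PX.t_CHR Pool.Agent.Q79.PX.t_BPT (Pool.Agent.Q38.PX4.t_INV Pool.Agent.Q79.PX.t_CHR)

end Pool.Agent.Q284.GE
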