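import Pool.Agent.Q284.GE.Main

/-!
# Project GE: one step of the construction
-/

set_option autoImplicit false

open Finset Polynomial ComplexConjugate
open Pool.Agent.H341R2.Sharp (Mon mem_Mon)

namespace Pool.Agent.Q284.GE

open Pool.Agent.Q284.PS (Prim Hay CM PD PI qq mem_PI norm_le_one)

section Step

variable {F : Type} [Field F] [Fintype F]

omit [Fintype F] in
theorem mul_div_self' {K : Type} [Field K] {a b : K} (h : a ≠ 0) : a * (b / a) = b := by
  field_simp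

theorem sqrt_pow_eq {q : ℝ} (hq : 0 < q) (j : ℕ) : Real.sqrt q ^ j = q ^ ((j : ℝ) / 2) := by
  rw [Real.sqrt_eq_rpow, ← Real.rpow_natCast, ← Real.rpow_mul hq.le]
  congr 1
  ring

/-- numerical facts in degree `j` -/
theorem num_step {ν M j : ℕ} {r₀ B κ : ℝ} (hPLB : S_PLB) (hnum : Num (qq F) r₀ B κ ν M) (hν : 9 ≤ ν) (hj : 1 ≤ j)
    (hjM : ν * (M - 2) ≤ 2 * j) {c : ℕ} (hc : (c : ℝ) ≤ 4 * qq F ^ (4 * (j : ℝ) / ν + 3 - M)) :
    (c : ℝ) * (2 * ((2 * j / ν + 1 : ℕ) : ℝ) + 2) * Real.sqrt (qq F) ^ j / j + ((2 * j / ν + 1 : ℕ) : ℝ) / j +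
        (PI F j).card / 2 ≤ (PI F j).card ∧
    (c : ℝ) * (2 * (3 * Real.sqrt (qq F) ^ j) / (PI F j).card) ≤ al (qq F) ν M j := by
  have hq2 := two_le_qq (F := F)
  have hq0 : 0 < qq F := by linarith
  have hj0 : (0 : ℝ) < j := by exact_mod_cast hj
  have hν0 : (0 : ℝ) < ν := by exact_mod_cast (by omega : 0 < ν)
  obtain ⟨_, hP2, _⟩ := hPLB F j hj
  have hP : qq F ^ (j : ℝ) ≤ 2 * j * (PI F j).card := by
    rw [Real.rpow_natCast]
    unfold qq
    exact_mod_cast hP2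
  have hqj : 0 < qq F ^ (j : ℝ) := Real.rpow_pos_of_pos hq0 _
  have hπ : 0 < ((PI F j).card : ℝ) := by
    by_contra h
    have h1 : ((PI F j).card : ℝ) ≤ 0 := not_lt.1 h
    nlinarith
  have hc0 : (0 : ℝ) ≤ c := Nat.cast_nonneg c
  have hdiv : ((2 * j / ν : ℕ) : ℝ) ≤ 2 * j / ν := by
    have := Nat.cast_div_le (α := ℝ) (m := 2 * j) (n := ν)
    push_cast at this
    exact this
  have hcc : ((2 * j / ν + 1 : ℕ) : ℝ) ≤ 2 * j / ν + 1 := by
    push_cast
    linarith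
  rw [sqrt_pow_eq hq0]
  have e1 : qq F ^ (4 * (j : ℝ) / ν + 3 - M) * qq F ^ ((j : ℝ) / 2) =
      qq F ^ (3 - (M : ℝ) - eta ν * j) * qq F ^ (j : ℝ) := by
    rw [← Real.rpow_add hq0, ← Real.rpow_add hq0]
    congr 1
    unfold eta
    ring
  have hcq : (c : ℝ) * qq F ^ ((j : ℝ) / 2) ≤ 4 * (qq F ^ (3 - (M : ℝ) - eta ν * j) * qq F ^ (j : ℝ)) := by
    rw [← e1, ← mul_assoc]
    exact mul_le_mul_of_nonneg_right hc (by positivity)
  constructor
  · have hdd := hnum.dd j hjM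
    have h1 : (c : ℝ) * (2 * ((2 * j / ν + 1 : ℕ) : ℝ) + 2) * qq F ^ ((j : ℝ) / 2) / j +
        ((2 * j / ν + 1 : ℕ) : ℝ) / j ≤ qq F ^ (j : ℝ) / (4 * j) := by
      rw [← add_div, div_le_div_iff₀ hj0 (by positivity)]
      have h2 : (c : ℝ) * (2 * ((2 * j / ν + 1 : ℕ) : ℝ) + 2) * qq F ^ ((j : ℝ) / 2) ≤
          4 * (qq F ^ (3 - (M : ℝ) - eta ν * j) * qq F ^ (j : ℝ)) * (4 * j / ν + 4) := by
        have h3 : 2 * ((2 * j / ν + 1 : ℕ) : ℝ) + 2 ≤ 4 * j / ν + 4 := by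
          have : (4 : ℝ) * j / ν = 2 * (2 * j / ν) := by ring
          rw [this]
          linarith
        calc (c : ℝ) * (2 * ((2 * j / ν + 1 : ℕ) : ℝ) + 2) * qq F ^ ((j : ℝ) / 2) =
            ((c : ℝ) * qq F ^ ((j : ℝ) / 2)) * (2 * ((2 * j / ν + 1 : ℕ) : ℝ) + 2) := by ring
          _ ≤ 4 * (qq F ^ (3 - (M : ℝ) - eta ν * j) * qq F ^ (j : ℝ)) * (4 * j / ν + 4) :=
              mul_le_mul hcq h3 (by positivity) (by positivity)
      have h4 : qq F ^ (-(j : ℝ)) * qq F ^ (j : ℝ) = 1 := by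
        rw [← Real.rpow_add hq0]
        simp
      have h5 : (16 * qq F ^ (3 - (M : ℝ) - eta ν * j) * (4 * j / ν + 4) +
          4 * (2 * j / ν + 1) * qq F ^ (-(j : ℝ))) * qq F ^ (j : ℝ) ≤ 1 * qq F ^ (j : ℝ) :=
        mul_le_mul_of_nonneg_right hdd hqj.le
      have h6 : 4 * (2 * (j : ℝ) / ν + 1) * qq F ^ (-(j : ℝ)) * qq F ^ (j : ℝ) = 4 * (2 * (j : ℝ) / ν + 1) := by
        rw [mul_assoc, h4, mul_one]
      have h7 : ((c : ℝ) * (2 * ((2 * j / ν + 1 : ℕ) : ℝ) + 2) * qq F ^ ((j : ℝ) / 2) +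
          ((2 * j / ν + 1 : ℕ) : ℝ)) * 4 ≤ qq F ^ (j : ℝ) := by
        nlinarith
      calc ((c : ℝ) * (2 * ((2 * j / ν + 1 : ℕ) : ℝ) + 2) * qq F ^ ((j : ℝ) / 2) +
          ((2 * j / ν + 1 : ℕ) : ℝ)) * (4 * j) = (((c : ℝ) * (2 * ((2 * j / ν + 1 : ℕ) : ℝ) + 2) *
          qq F ^ ((j : ℝ) / 2) + ((2 * j / ν + 1 : ℕ) : ℝ)) * 4) * j := by ring
        _ ≤ qq F ^ (j : ℝ) * j := mul_le_mul_of_nonneg_right h7 hj0.le
    have h8 : qq F ^ (j : ℝ) / (4 * j) ≤ (PI F j).card / 2 := by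
      rw [div_le_div_iff₀ (by positivity) (by norm_num)]
      linarith
    linarith
  · unfold al
    rw [if_pos hjM, mul_div_assoc', div_le_iff₀ hπ]
    calc (c : ℝ) * (2 * (3 * qq F ^ ((j : ℝ) / 2))) = 6 * ((c : ℝ) * qq F ^ ((j : ℝ) / 2)) := by ring
      _ ≤ 6 * (4 * (qq F ^ (3 - (M : ℝ) - eta ν * j) * qq F ^ (j : ℝ))) := by linarith
      _ = 24 * qq F ^ (3 - (M : ℝ) - eta ν * j) * qq F ^ (j : ℝ) := by ring
      _ ≤ 24 * qq F ^ (3 - (M : ℝ) - eta ν * j) * (2 * j * (PI F j).card) :=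
          mul_le_mul_of_nonneg_left hP (by positivity)
      _ = 48 * j * qq F ^ (3 - (M : ℝ) - eta ν * j) * (PI F j).card := by ring

/-- the values which are forced in degree `j = N + 1`, and the solution of the linear equations, for one index -/
theorem step_one (hPLB : S_PLB) (hGSL : S_GSL) (hCN : S_CN2) (hRPW : S_RPW) (hCIR : S_CIR) (hEXP : S_EXPO)
    (hTGT : S_TGT) {r₀ B ϑ : ℝ} {K : ℕ} (hpar : Par r₀ B ϑ K) {ι : Type} {p : ι → F[X] → (ι → ℝ) → ℕ → ℝ}
    (hloc : Loc F ι r₀ B ϑ K p) {ν M : ℕ} (hν : 9 ≤ ν) (hM : 3 ≤ M) (hnum : Num (qq F) r₀ B (kap ϑ K) ν M)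
    {D : ι → (F[X] → ℂ) → ℕ} {ε : ι → (F[X] → ℂ) → ℂ} (hdat : Dat F ι ν M D ε) {N : ℕ} {a : F[X] → ι → ℝ}
    (hinv : Inv F ι B (kap ϑ K) ν M D ε p N a) (i : ι) :
    ∃ x : F[X] → ℝ, (∀ P, |x P| ≤ al (qq F) ν M (N + 1)) ∧
      (∀ (Q : F[X]) (l : ℕ) (χ : F[X] → ℂ), Prim Q l χ → 2 * (N + 1) < D i χ →
        ‖((N + 1 : ℕ) : ℂ) * ∑ P ∈ PI F (N + 1), (x P : ℂ) * χ P‖ ≤
          Lm (qq F) ν M (Q.natDegree + l) (N + 1) * Real.sqrt (qq F) ^ (N + 1)) ∧
      ∀ (Q : F[X]) (l : ℕ) (χ : F[X] → ℂ), Prim Q l χ → D i χ ≤ 2 * (N + 1) →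
        ∃ b : ℂ[X], Uni (D i χ) (ε i χ) b ∧ (∀ n : ℕ, 2 * n = D i χ → b.coeff n = 0) ∧
          ∃ s : ℕ → ℂ, Newt s b (N + 1) ∧ (∀ m : ℕ, 1 ≤ m → m ≤ N → s m = ps p a i χ m) ∧
            ((N + 1 : ℕ) : ℂ) * ∑ P ∈ PI F (N + 1), (x P : ℂ) * χ P + pw p a i χ (N + 1) =
              s (N + 1) * (Real.sqrt (qq F) : ℂ) ^ (N + 1) := by
  classical
  have hq2 := two_le_qq (F := F)
  have hq0 : 0 < qq F := by linarith
  have hsq : 0 < Real.sqrt (qq F) := Real.sqrt_pos.2 hq0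
  have hκ : 0 < kap ϑ K := by
    unfold kap
    apply lt_min (by norm_num)
    have hK0 : (0 : ℝ) < K := by exact_mod_cast (by have := hpar.K3; omega : 0 < K)
    have h1 := hpar.K1
    have h2 : 1 / (K : ℝ) < 1 / 2 - ϑ := by
      rw [div_lt_iff₀ hK0]
      linarith
    linarith
  set j : ℕ := N + 1 with hjd
  have hj1 : 1 ≤ j := by omega
  have hjR : (0 : ℝ) < j := by exact_mod_cast hj1
  have hDM : ∀ (Q : F[X]) (l : ℕ) (χ : F[X] → ℂ), Prim Q l χ → ν * (M - 2) ≤ D i χ := by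
    intro Q l χ hχ
    refine le_trans (Nat.mul_le_mul_left ν ?_) (hdat.deg i Q l χ hχ)
    have := le_max_left M (l + 1)
    omega
  -- the polynomial of a character which is complete in degree `j`
  have hA : ∀ (Q : F[X]) (l : ℕ) (χ : F[X] → ℂ), Prim Q l χ → D i χ ≤ 2 * j →
      ∃ b : ℂ[X], Uni (D i χ) (ε i χ) b ∧ (∀ n : ℕ, 2 * n = D i χ → b.coeff n = 0) ∧
        Newt (ps p a i χ) b N := by
    intro Q l χ hχ hD
    rcases le_or_gt (D i χ) (2 * N) with h | h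
    · exact hinv.pol i Q l χ hχ h
    · obtain ⟨b, h1, h2, h3⟩ := exists_pol hCIR hEXP hν hM hnum hdat hκ hχ (s := ps p a i χ) (by
        intro m hm1 hm2
        exact hinv.free i Q l χ m hχ hm1 (by omega) hm2)
      exact ⟨b, h1, h2, fun n hn1 hn2 => h3 n hn1 (by omega)⟩
  rcases lt_or_ge (2 * j) (ν * (M - 2)) with hlt | hjM
  · -- no character is complete
    refine ⟨fun _ => 0, ?_, ?_, ?_⟩
    · intro P
      rw [abs_zero]
      unfold al
      rw [if_neg (not_le.2 hlt)]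
    · intro Q l χ hχ hD
      simp only [Complex.ofReal_zero, zero_mul, sum_const_zero, mul_zero, norm_zero]
      have : 0 ≤ Lm (qq F) ν M (Q.natDegree + l) j := by
        unfold Lm
        positivity
      positivity
    · intro Q l χ hχ hD
      have := hDM Q l χ hχ
      omega
  · -- the set of the complete characters
    obtain ⟨hfin, hcard⟩ := hCN F ν M j (by omega) hM
    have hfinC : {χ : F[X] → ℂ | ∃ (Q : F[X]) (l : ℕ), Prim Q l χ ∧ D i χ ≤ 2 * j}.Finite := by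
      apply hfin.subset
      rintro χ ⟨Q, l, h1, h2⟩
      exact ⟨Q, l, h1, (hdat.deg i Q l χ h1).trans h2⟩
    set C : Finset (F[X] → ℂ) := hfinC.toFinset with hCd
    have hmemC : ∀ χ, χ ∈ C ↔ ∃ (Q : F[X]) (l : ℕ), Prim Q l χ ∧ D i χ ≤ 2 * j := by
      intro χ
      rw [hCd, Set.Finite.mem_toFinset]
      rfl
    have hcC : (C.card : ℝ) ≤ 4 * qq F ^ (4 * (j : ℝ) / ν + 3 - M) := by
      refine le_trans ?_ hcard
      have : C.card ≤ hfin.toFinset.card := by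
        apply card_le_card
        intro χ hχ
        rw [Set.Finite.mem_toFinset]
        obtain ⟨Q, l, h1, h2⟩ := (hmemC χ).1 hχ
        exact ⟨Q, l, h1, (hdat.deg i Q l χ h1).trans h2⟩
      rw [Set.ncard_eq_toFinset_card _ hfin]
      exact_mod_cast this
    obtain ⟨hgs, hal⟩ := num_step hPLB hnum hν hj1 hjM hcC
    -- the forced values
    have hB : ∀ χ : F[X] → ℂ, ∃ (b : ℂ[X]) (s : ℕ → ℂ), χ ∈ C → Uni (D i χ) (ε i χ) b ∧
        (∀ n : ℕ, 2 * n = D i χ → b.coeff n = 0) ∧ Newt (ps p a i χ) b N ∧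
        (∀ m : ℕ, 1 ≤ m → ‖s m‖ ≤ D i χ) ∧ ∀ N, Newt s b N := by
      intro χ
      by_cases h : χ ∈ C
      · obtain ⟨Q, l, h1, h2⟩ := (hmemC χ).1 h
        obtain ⟨b, h3, h4, h5⟩ := hA Q l χ h1 h2
        obtain ⟨_, s, h6, h7⟩ := hTGT _ _ b h3
        exact ⟨b, s, fun _ => ⟨h3, h4, h5, h6, h7⟩⟩
      · exact ⟨0, 0, fun h' => absurd h' h⟩
    choose b s hbs using hB
    have hconjC : ∀ χ ∈ C, (fun f => conj (χ f)) ∈ C := by
      intro χ hχ
      obtain ⟨Q, l, h1, h2⟩ := (hmemC χ).1 hχ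
      exact (hmemC _).2 ⟨Q, l, prim_conj h1, by rw [hdat.degc i Q l χ h1]; exact h2⟩
    have hsconj : ∀ χ ∈ C, s (fun f => conj (χ f)) j = conj (s χ j) := by
      intro χ hχ
      obtain ⟨Q, l, h1, h2⟩ := (hmemC χ).1 hχ
      obtain ⟨u1, u2, u3, u4, u5⟩ := hbs χ hχ
      obtain ⟨w1, w2, w3, w4, w5⟩ := hbs _ (hconjC χ hχ)
      rw [hdat.degc i Q l χ h1, hdat.epsc i χ] at w1
      rw [hdat.degc i Q l χ h1] at w2
      have u1' := uni_conj u1
      have u3' := newt_conj u3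
      have e : b (fun f => conj (χ f)) = (b χ).map (starRingEnd ℂ) := by
        refine uni_unique (s := fun m => conj (ps p a i χ m)) w1 u1' w2 ?_ ?_ ?_
        · intro n hn
          rw [coeff_map, u2 n hn, map_zero]
        · intro n hn1 hn2
          rw [w3 n hn1 (by omega)]
          apply sum_congr rfl
          intro m _
          rw [ps_conj]
        · intro n hn1 hn2
          exact u3' n hn1 (by omega)
      have u5' := newt_conj (u5 j)
      rw [← e] at u5'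
      exact newt_unique w1.zero (w5 j) u5' j hj1 le_rfl
    set t : (F[X] → ℂ) → ℂ := fun χ =>
      (s χ j * (Real.sqrt (qq F) : ℂ) ^ j - pw p a i χ j) / (j : ℂ) with htd
    have hpw : ∀ χ : F[X] → ℂ, (∀ f, ‖χ f‖ ≤ 1) →
        ‖pw p a i χ j‖ ≤ Rm (qq F) B (kap ϑ K) M j * Real.sqrt (qq F) ^ j := by
      intro χ hχ
      refine hRPW r₀ B ϑ K hpar F ι p hloc ν M hν hM ?_ a j hj1 ?_ i χ hχ
      · intro j' hj'
        refine (hnum.sm j' hj').trans ?_
        have h1 : qq F ^ (-(9 / 10 * eta ν * j')) ≤ 1 := by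
          apply Real.rpow_le_one_of_one_le_of_nonpos (by linarith)
          have : 0 ≤ eta ν := by
            unfold eta
            have h9 : (9 : ℝ) ≤ ν := by exact_mod_cast hν
            have : 4 / (ν : ℝ) ≤ 4 / 9 := by
              apply div_le_div_of_nonneg_left (by norm_num) (by norm_num) h9
            linarith
          have : 0 ≤ 9 / 10 * eta ν * j' := by positivity
          linarith
        have := hpar.r0
        nlinarith
      · intro P i' h1 h2 h3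
        exact hinv.small P i' h1 h2 (by omega)
    have ht : ∀ χ ∈ C, ‖t χ‖ ≤ 3 * Real.sqrt (qq F) ^ j ∧ t (fun f => conj (χ f)) = conj (t χ) := by
      intro χ hχ
      obtain ⟨Q, l, h1, h2⟩ := (hmemC χ).1 hχ
      obtain ⟨u1, u2, u3, u4, u5⟩ := hbs χ hχ
      have hjc : (j : ℂ) ≠ 0 := by exact_mod_cast hjR.ne'
      constructor
      · rw [htd]
        show ‖(s χ j * (Real.sqrt (qq F) : ℂ) ^ j - pw p a i χ j) / (j : ℂ)‖ ≤ _
        rw [norm_div, Complex.norm_natCast, div_le_iff₀ hjR]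
        refine (norm_sub_le _ _).trans ?_
        have h3 : ‖s χ j * (Real.sqrt (qq F) : ℂ) ^ j‖ ≤ 2 * j * Real.sqrt (qq F) ^ j := by
          rw [norm_mul, norm_pow, Complex.norm_real, Real.norm_eq_abs, abs_of_pos hsq]
          apply mul_le_mul_of_nonneg_right _ (by positivity)
          refine (u4 j hj1).trans ?_
          exact_mod_cast h2
        have h4 := hpw χ (norm_le_one h1.1)
        have h5 := hnum.pp j hjM
        have h6 : Rm (qq F) B (kap ϑ K) M j * Real.sqrt (qq F) ^ j ≤ j * Real.sqrt (qq F) ^ j :=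
          mul_le_mul_of_nonneg_right h5 (by positivity)
        linarith
      · rw [htd]
        show (s (fun f => conj (χ f)) j * (Real.sqrt (qq F) : ℂ) ^ j - pw p a i (fun f => conj (χ f)) j) / (j : ℂ) =
          conj ((s χ j * (Real.sqrt (qq F) : ℂ) ^ j - pw p a i χ j) / (j : ℂ))
        rw [hsconj χ hχ, pw_conj, map_div₀, map_sub, map_mul, map_pow, Complex.conj_ofReal, map_natCast]
    obtain ⟨x, hx1, hx2, hx3⟩ := hGSL F j (2 * j / ν + 1) C (3 * Real.sqrt (qq F) ^ j) t hj1 (by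
        intro χ hχ
        obtain ⟨Q, l, h1, h2⟩ := (hmemC χ).1 hχ
        refine ⟨Q, l, h1, ?_⟩
        have h3 := hdat.deg i Q l χ h1
        have h4 : Q.natDegree + max M (l + 1) - 2 ≤ 2 * j / ν := by
          rw [Nat.le_div_iff_mul_le (by omega), mul_comm]
          exact h3.trans h2
        have := le_max_right M (l + 1)
        omega) hconjC hgs ht
    refine ⟨x, fun P => (hx2 P).trans hal, ?_, ?_⟩
    · intro Q l χ hχ hD
      have hnot : χ ∉ C := by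
        intro h
        obtain ⟨_, _, _, h2⟩ := (hmemC χ).1 h
        omega
      have h1 := hx3 Q l χ hχ hnot
      rw [norm_mul, Complex.norm_natCast]
      have hdiv : ((2 * j / ν : ℕ) : ℝ) ≤ 2 * j / ν := by
        have := Nat.cast_div_le (α := ℝ) (m := 2 * j) (n := ν)
        push_cast at this
        exact this
      have h2 : (C.card : ℝ) * (2 * (3 * Real.sqrt (qq F) ^ j) / (PI F j).card) *
          (Q.natDegree + l + ((2 * j / ν + 1 : ℕ) : ℝ) + 2) * Real.sqrt (qq F) ^ j ≤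
          Lm (qq F) ν M (Q.natDegree + l) j * Real.sqrt (qq F) ^ j := by
        apply mul_le_mul_of_nonneg_right _ (by positivity)
        have h3 : Lm (qq F) ν M (Q.natDegree + l) j =
            al (qq F) ν M j * ((Q.natDegree : ℝ) + l + 2 * j / ν + 3) := by
          unfold Lm al
          rw [if_pos hjM]
          push_cast
          ring
        rw [h3]
        apply mul_le_mul hal _ (by positivity)
        · unfold al
          rw [if_pos hjM]
          positivity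
        · push_cast
          linarith
      calc (j : ℝ) * ‖∑ P ∈ PI F j, (x P : ℂ) * χ P‖ ≤ j * (C.card *
            (2 * (3 * Real.sqrt (qq F) ^ j) / (PI F j).card) *
            (Q.natDegree + l + ((2 * j / ν + 1 : ℕ) : ℝ) + 2) * Real.sqrt (qq F) ^ j / j) :=
            mul_le_mul_of_nonneg_left h1 hjR.le
        _ = C.card * (2 * (3 * Real.sqrt (qq F) ^ j) / (PI F j).card) *
            (Q.natDegree + l + ((2 * j / ν + 1 : ℕ) : ℝ) + 2) * Real.sqrt (qq F) ^ j := by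
            rw [mul_div_self' hjR.ne']
        _ ≤ _ := h2
    · intro Q l χ hχ hD
      have hχC : χ ∈ C := (hmemC χ).2 ⟨Q, l, hχ, hD⟩
      obtain ⟨u1, u2, u3, u4, u5⟩ := hbs χ hχC
      refine ⟨b χ, u1, u2, s χ, u5 j, ?_, ?_⟩
      · intro m hm1 hm2
        exact newt_unique u1.zero (u5 N) u3 m hm1 hm2
      · rw [hx1 χ hχC, htd]
        have hjc : (j : ℂ) ≠ 0 := by exact_mod_cast hjR.ne'
        show (j : ℂ) * ((s χ j * (Real.sqrt (qq F) : ℂ) ^ j - pw p a i χ j) / (j : ℂ)) + pw p a i χ j = _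
        rw [mul_div_self' hjc]
        ring

end Step

end Pool.Agent.Q284.GE
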