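import Pool.Agent.Q284.GE.All

/-!
# Project GE: degrees which depend on the conductor
-/

set_option autoImplicit false

open Finset Polynomial ComplexConjugate

namespace Pool.Agent.Q284.GE

open Pool.Agent.Q284.PS (Prim qq Place absPow Nice Tempered RankinSelbergConverges)
open Pool.Agent.Q284.PX (SelfDual stFactor repFactor lin)

theorem uni : PS.S_UNI := Pool.Agent.Q277.PS.t_UNI Pool.Agent.Q68.PS.t_CRT Pool.Agent.Q68.PS.t_ETA

theorem prim_unique {F : Type} [Field F] [Fintype F] {Q Q' : F[X]} {l l' : ℕ} {χ : F[X] → ℂ}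
    (h : Prim Q l χ) (h' : Prim Q' l' χ) : Q = Q' ∧ l = l' := by
  obtain ⟨h1, h2, _⟩ := uni F Q Q' l l' χ χ h h' (fun _ _ _ _ => rfl)
  exact ⟨h1, h2⟩

open Classical in
/-- a function of the conductor and the character as a function of the character -/
noncomputable def lev {F : Type} [Field F] [Fintype F] (D : F[X] → ℕ → (F[X] → ℂ) → ℕ) (χ : F[X] → ℂ) : ℕ :=
  if h : ∃ (Q : F[X]) (l : ℕ), Prim Q l χ then D h.choose h.choose_spec.choose χ else 0

theorem lev_eq {F : Type} [Field F] [Fintype F] (D : F[X] → ℕ → (F[X] → ℂ) → ℕ) {Q : F[X]} {l : ℕ}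
    {χ : F[X] → ℂ} (h : Prim Q l χ) : lev D χ = D Q l χ := by
  classical
  have h1 : ∃ (Q : F[X]) (l : ℕ), Prim Q l χ := ⟨Q, l, h⟩
  unfold lev
  rw [dif_pos h1]
  obtain ⟨h2, h3⟩ := prim_unique h h1.choose_spec.choose_spec
  have key : ∀ (a : F[X]) (b : ℕ), Q = a → l = b → D a b χ = D Q l χ := by
    rintro a b rfl rfl
    rfl
  exact key _ _ h2 h3

end Pool.Agent.Q284.GE
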