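import Pool.Agent.Q284.WE.Defs
import Pool.Agent.Q284.PX.Defs

/-!
# Project GE: Euler products over `F_q(T)` whose abelian twists are all nice and satisfy the Riemann hypothesis.
Definitions.

`q = qq F = #F`.  `ι` is a finite index set of `L`-functions; the parameter at the prime `P` is a vector
`a P : ι → ℝ`; `p i P x k` is the `k`-th power sum of the local factor with index `i` at `P` if the parameter is `x`.
-/

set_option autoImplicit false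

open Finset Polynomial ComplexConjugate
open Pool.Agent.H341R2.Sharp (Mon)

namespace Pool.Agent.Q284.GE

open Pool.Agent.Q284.PS (Prim Hay CM PD PI qq)

/-- the numerical parameters -/
structure Par (r₀ B ϑ : ℝ) (K : ℕ) : Prop where
  r0 : 0 < r₀
  B0 : 0 ≤ B
  t0 : 0 ≤ ϑ
  K3 : 3 ≤ K
  K1 : 1 < K * (1 / 2 - ϑ)

/-- the exponent `κ = min (1/36) (1/2 - ϑ - 1/K)` -/
noncomputable def kap (ϑ : ℝ) (K : ℕ) : ℝ := min (1 / 36) (1 / 2 - ϑ - 1 / K)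

/-- the conditions on the local power sums -/
structure Loc (F : Type) [Field F] [Fintype F] (ι : Type) (r₀ B ϑ : ℝ) (K : ℕ)
    (p : ι → F[X] → (ι → ℝ) → ℕ → ℝ) : Prop where
  one : ∀ (i : ι) (P : F[X]) (x : ι → ℝ), P.Monic → Irreducible P → (∀ j, |x j| ≤ r₀) → p i P x 1 = x i
  mid : ∀ (i : ι) (P : F[X]) (x : ι → ℝ) (k : ℕ) (t : ℝ), P.Monic → Irreducible P → t ≤ r₀ →
    (∀ j, |x j| ≤ t) → 2 ≤ k → k < K → |p i P x k| ≤ B * t
  all : ∀ (i : ι) (P : F[X]) (x : ι → ℝ) (k : ℕ), P.Monic → Irreducible P → (∀ j, |x j| ≤ r₀) → 1 ≤ k →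
    |p i P x k| ≤ B * qq F ^ (ϑ * (k * P.natDegree))

/-- the degrees and the root numbers of the `L`-functions -/
structure Dat (F : Type) [Field F] [Fintype F] (ι : Type) (ν M : ℕ) (D : ι → (F[X] → ℂ) → ℕ)
    (ε : ι → (F[X] → ℂ) → ℂ) : Prop where
  deg : ∀ (i : ι) (Q : F[X]) (l : ℕ) (χ : F[X] → ℂ), Prim Q l χ →
    ν * (Q.natDegree + max M (l + 1) - 2) ≤ D i χ
  degc : ∀ (i : ι) (Q : F[X]) (l : ℕ) (χ : F[X] → ℂ), Prim Q l χ → D i (fun f => conj (χ f)) = D i χ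
  eps : ∀ (i : ι) (χ : F[X] → ℂ), ‖ε i χ‖ = 1
  epsc : ∀ (i : ι) (χ : F[X] → ℂ), ε i (fun f => conj (χ f)) = conj (ε i χ)

section Sums

variable {F : Type} [Field F] [Fintype F] {ι : Type}

/-- normalised power sums of the twisted `L`-function -/
noncomputable def ps (p : ι → F[X] → (ι → ℝ) → ℕ → ℝ) (a : F[X] → ι → ℝ) (i : ι) (χ : F[X] → ℂ) (m : ℕ) : ℂ :=
  (∑ P ∈ PD F m, (P.natDegree : ℂ) * (p i P (a P) (m / P.natDegree) : ℂ) * χ P ^ (m / P.natDegree)) /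
    (Real.sqrt (qq F) : ℂ) ^ m

open Classical in
/-- the part of the prime powers, not normalised -/
noncomputable def pw (p : ι → F[X] → (ι → ℝ) → ℕ → ℝ) (a : F[X] → ι → ℝ) (i : ι) (χ : F[X] → ℂ) (m : ℕ) : ℂ :=
  ∑ P ∈ (PD F m).filter (fun P => P.natDegree < m),
    (P.natDegree : ℂ) * (p i P (a P) (m / P.natDegree) : ℂ) * χ P ^ (m / P.natDegree)

end Sums

/-- `b` is a normalised `L`-polynomial of degree `D` with root number `ε`: `b(0) = 1`, the functional equation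
holds, and all roots are on the unit circle -/
structure Uni (D : ℕ) (ε : ℂ) (b : ℂ[X]) : Prop where
  deg : b.natDegree = D
  zero : b.coeff 0 = 1
  fe : ∀ k : ℕ, k ≤ D → b.coeff (D - k) = ε * conj (b.coeff k)
  root : ∀ z : ℂ, b.eval z = 0 → ‖z‖ = 1

/-- the numbers `s m` are the power sums belonging to the coefficients `b n`, up to `n = N` -/
def Newt (s : ℕ → ℂ) (b : ℂ[X]) (N : ℕ) : Prop :=
  ∀ n : ℕ, 1 ≤ n → n ≤ N → (n : ℂ) * b.coeff n = ∑ m ∈ Icc 1 n, s m * b.coeff (n - m)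

/-- the exponent `1/2 - 4/ν` -/
noncomputable def eta (ν : ℕ) : ℝ := 1 / 2 - 4 / (ν : ℝ)

/-- the bound for the parameters in degree `j` -/
noncomputable def al (q : ℝ) (ν M j : ℕ) : ℝ :=
  if ν * (M - 2) ≤ 2 * j then 48 * j * q ^ (3 - (M : ℝ) - eta ν * j) else 0

/-- the bound for the prime powers in degree `m` -/
noncomputable def Rm (q B κ : ℝ) (M m : ℕ) : ℝ :=
  72 * B * (m : ℝ) ^ 2 * q ^ (3 - (M : ℝ) - κ * m) + B * m * q ^ (-(κ * m))

/-- the bound for the primes in degree `m`, for characters with `deg Q + l ≤ c` -/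
noncomputable def Lm (q : ℝ) (ν M c m : ℕ) : ℝ :=
  48 * m * q ^ (3 - (M : ℝ) - eta ν * m) * (c + 2 * m / ν + 3)

/-- the numerical inequalities -/
structure Num (q r₀ B κ : ℝ) (ν M : ℕ) : Prop where
  /-- the sum condition for the location of the zeros -/
  est : ∀ (c D : ℕ), ν * (c - 1) ≤ D → ν * (M - 2) ≤ D → ∀ x : ℕ → ℝ, (∀ m, 1 ≤ m → 2 * m < D → 0 ≤ x m ∧
    x m ≤ Lm q ν M c m + Rm q B κ M m) →
    (∑ m ∈ (Icc 1 D).filter (fun m => 2 * m < D), x m / m * (1 + (q ^ (κ / 2)) ^ m)) +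
      Real.log (q ^ (κ / 2) / (q ^ (κ / 2) - 1)) < (D : ℝ) / 2 * Real.log (q ^ (κ / 2))
  /-- the parameters are small -/
  sm : ∀ j : ℕ, 1 ≤ j → al q ν M j ≤ r₀ * q ^ (-(9 / 10 * eta ν * j))
  /-- the prime powers are small -/
  pp : ∀ j : ℕ, ν * (M - 2) ≤ 2 * j → Rm q B κ M j ≤ j
  /-- diagonal dominance -/
  dd : ∀ j : ℕ, ν * (M - 2) ≤ 2 * j →
    16 * q ^ (3 - (M : ℝ) - eta ν * j) * (4 * j / ν + 4) + 4 * (2 * j / ν + 1) * q ^ (-(j : ℝ)) ≤ 1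

/-- the stage `N` of the construction -/
structure Inv (F : Type) [Field F] [Fintype F] (ι : Type) (B κ : ℝ) (ν M : ℕ) (D : ι → (F[X] → ℂ) → ℕ)
    (ε : ι → (F[X] → ℂ) → ℂ) (p : ι → F[X] → (ι → ℝ) → ℕ → ℝ) (N : ℕ) (a : F[X] → ι → ℝ) : Prop where
  small : ∀ (P : F[X]) (i : ι), P.Monic → Irreducible P → P.natDegree ≤ N → |a P i| ≤ al (qq F) ν M P.natDegree
  free : ∀ (i : ι) (Q : F[X]) (l : ℕ) (χ : F[X] → ℂ) (m : ℕ), Prim Q l χ → 1 ≤ m → m ≤ N → 2 * m < D i χ →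
    ‖ps p a i χ m‖ ≤ Lm (qq F) ν M (Q.natDegree + l) m + Rm (qq F) B κ M m
  pol : ∀ (i : ι) (Q : F[X]) (l : ℕ) (χ : F[X] → ℂ), Prim Q l χ → D i χ ≤ 2 * N →
    ∃ b : ℂ[X], Uni (D i χ) (ε i χ) b ∧ (∀ n : ℕ, 2 * n = D i χ → b.coeff n = 0) ∧ Newt (ps p a i χ) b N

end Pool.Agent.Q284.GE
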