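import Pool.Agent.Q284.GE.Step

/-!
# Project GE: the engine
-/

set_option autoImplicit false

open Finset Polynomial ComplexConjugate
open Pool.Agent.H341R2.Sharp (Mon mem_Mon)

namespace Pool.Agent.Q284.GE

open Pool.Agent.Q284.PS (Prim Hay CM PD PI qq mem_PI norm_le_one)

theorem eta_pos {ν : ℕ} (hν : 9 ≤ ν) : 0 < eta ν := by
  unfold eta
  have h9 : (9 : ℝ) ≤ ν := by exact_mod_cast hν
  have : 4 / (ν : ℝ) ≤ 4 / 9 := by
    apply div_le_div_of_nonneg_left (by norm_num) (by norm_num) h9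
  linarith

theorem al_le {q r₀ B κ : ℝ} {ν M : ℕ} (hq : 2 ≤ q) (hr : 0 < r₀) (hν : 9 ≤ ν) (hnum : Num q r₀ B κ ν M) {j : ℕ}
    (hj : 1 ≤ j) : al q ν M j ≤ r₀ := by
  refine (hnum.sm j hj).trans ?_
  have h1 : q ^ (-(9 / 10 * eta ν * j)) ≤ 1 := by
    apply Real.rpow_le_one_of_one_le_of_nonpos (by linarith)
    have := eta_pos hν
    have : 0 ≤ 9 / 10 * eta ν * j := by positivity
    linarith
  nlinarith

/-- the engine: all the twisted `L`-polynomials have the prescribed degree and root number, and all their zeros are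
on the unit circle -/
def GEN : Prop := ∀ (r₀ B ϑ : ℝ) (K : ℕ), Par r₀ B ϑ K → ∃ M₀ : ℕ, 3 ≤ M₀ ∧
  ∀ (F : Type) [Field F] [Fintype F] (ι : Type) (p : ι → F[X] → (ι → ℝ) → ℕ → ℝ), Loc F ι r₀ B ϑ K p →
  ∀ (ν M : ℕ), 9 ≤ ν → M₀ ≤ M → ∀ (D : ι → (F[X] → ℂ) → ℕ) (ε : ι → (F[X] → ℂ) → ℂ), Dat F ι ν M D ε →
  ∃ a : F[X] → ι → ℝ, (∀ (P : F[X]) (i : ι), P.Monic → Irreducible P →
      |a P i| ≤ r₀ ∧ |a P i| ≤ r₀ * qq F ^ (-(9 / 10 * eta ν * P.natDegree))) ∧
    ∀ (i : ι) (Q : F[X]) (l : ℕ) (χ : F[X] → ℂ), Prim Q l χ →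
      ∃ b : ℂ[X], Uni (D i χ) (ε i χ) b ∧ ∀ N : ℕ, Newt (ps p a i χ) b N

section Step

variable {F : Type} [Field F] [Fintype F]

theorem step (hPLB : S_PLB) (hGSL : S_GSL) (hCN : S_CN2) (hRPW : S_RPW) (hCIR : S_CIR) (hEXP : S_EXPO)
    (hTGT : S_TGT) {r₀ B ϑ : ℝ} {K : ℕ} (hpar : Par r₀ B ϑ K) {ι : Type} {p : ι → F[X] → (ι → ℝ) → ℕ → ℝ}
    (hloc : Loc F ι r₀ B ϑ K p) {ν M : ℕ} (hν : 9 ≤ ν) (hM : 3 ≤ M) (hnum : Num (qq F) r₀ B (kap ϑ K) ν M)
    {D : ι → (F[X] → ℂ) → ℕ} {ε : ι → (F[X] → ℂ) → ℂ} (hdat : Dat F ι ν M D ε) {N : ℕ} {a : F[X] → ι → ℝ}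
    (hinv : Inv F ι B (kap ϑ K) ν M D ε p N a) :
    ∃ a' : F[X] → ι → ℝ, (∀ P : F[X], P.natDegree ≤ N → a P = a' P) ∧
      Inv F ι B (kap ϑ K) ν M D ε p (N + 1) a' := by
  classical
  have hq2 := two_le_qq (F := F)
  have hq0 : 0 < qq F := by linarith
  have hsq : 0 < Real.sqrt (qq F) := Real.sqrt_pos.2 hq0
  have hsqc : (Real.sqrt (qq F) : ℂ) ^ (N + 1) ≠ 0 := by
    apply pow_ne_zero
    exact_mod_cast hsq.ne'
  choose x hx1 hx2 hx3 using fun i => step_one hPLB hGSL hCN hRPW hCIR hEXP hTGT hpar hloc hν hM hnum hdat hinv i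
  let a' : F[X] → ι → ℝ := fun P i => if P.natDegree = N + 1 then x i P else a P i
  have hlow : ∀ P : F[X], P.natDegree ≤ N → a P = a' P := by
    intro P hP
    funext i
    show a P i = if P.natDegree = N + 1 then x i P else a P i
    rw [if_neg (by omega)]
  have htop : ∀ P : F[X], P.natDegree = N + 1 → ∀ i, a' P i = x i P := by
    intro P hP i
    show (if P.natDegree = N + 1 then x i P else a P i) = x i P
    rw [if_pos hP]
  have hall : ∀ j : ℕ, 1 ≤ j → al (qq F) ν M j ≤ r₀ := fun j hj => al_le hq2 hpar.r0 hν hnum hj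
  have hone : ∀ i : ι, ∀ P ∈ PI F (N + 1), p i P (a' P) 1 = a' P i := by
    intro i P hP
    rw [mem_PI] at hP
    apply hloc.one i P (a' P) hP.1 hP.2.2
    intro i'
    rw [htop P hP.2.1 i']
    exact (hx1 i' P).trans (hall _ (by omega))
  have hsum : ∀ (i : ι) (χ : F[X] → ℂ), ∑ P ∈ PI F (N + 1), (a' P i : ℂ) * χ P =
      ∑ P ∈ PI F (N + 1), (x i P : ℂ) * χ P := by
    intro i χ
    apply sum_congr rfl
    intro P hP
    rw [htop P (mem_PI.1 hP).2.1 i]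
  have hpw : ∀ (i : ι) (χ : F[X] → ℂ), pw p a i χ (N + 1) = pw p a' i χ (N + 1) := fun i χ =>
    pw_congr (fun P hP => hlow P (by omega)) i χ
  have hsplit : ∀ (i : ι) (χ : F[X] → ℂ), ps p a' i χ (N + 1) * (Real.sqrt (qq F) : ℂ) ^ (N + 1) =
      ((N + 1 : ℕ) : ℂ) * ∑ P ∈ PI F (N + 1), (x i P : ℂ) * χ P + pw p a i χ (N + 1) := by
    intro i χ
    rw [ps_split (by omega) (hone i), hsum, hpw]
  refine ⟨a', hlow, ?_, ?_, ?_⟩
  · intro P i h1 h2 h3
    rcases Nat.lt_or_ge N P.natDegree with h4 | h4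
    · have h5 : P.natDegree = N + 1 := by omega
      rw [htop P h5 i, h5]
      exact hx1 i P
    · rw [← hlow P h4]
      exact hinv.small P i h1 h2 h4
  · intro i Q l χ m h1 h2 h3 h4
    rcases Nat.lt_or_ge N m with h5 | h5
    · have h6 : m = N + 1 := by omega
      subst h6
      have h7 : ‖ps p a' i χ (N + 1)‖ * Real.sqrt (qq F) ^ (N + 1) ≤
          (Lm (qq F) ν M (Q.natDegree + l) (N + 1) + Rm (qq F) B (kap ϑ K) M (N + 1)) *
            Real.sqrt (qq F) ^ (N + 1) := by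
        have h8 : ‖ps p a' i χ (N + 1) * (Real.sqrt (qq F) : ℂ) ^ (N + 1)‖ =
            ‖ps p a' i χ (N + 1)‖ * Real.sqrt (qq F) ^ (N + 1) := by
          rw [norm_mul, norm_pow, Complex.norm_real, Real.norm_eq_abs, abs_of_pos hsq]
        rw [← h8, hsplit]
        refine (norm_add_le _ _).trans ?_
        have h9 := hx2 i Q l χ h1 h4
        have h10 := hRPW r₀ B ϑ K hpar F ι p hloc ν M hν hM hall a (N + 1) (by omega)
          (fun P i' k1 k2 k3 => hinv.small P i' k1 k2 (by omega)) i χ (norm_le_one h1.1)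
        rw [add_mul]
        exact add_le_add h9 h10
      exact le_of_mul_le_mul_right h7 (by positivity)
    · rw [← ps_congr hlow i χ h2 h5]
      exact hinv.free i Q l χ m h1 h2 h5 h4
  · intro i Q l χ h1 h2
    obtain ⟨b, h3, h4, s, h5, h6, h7⟩ := hx3 i Q l χ h1 h2
    refine ⟨b, h3, h4, newt_congr h5 ?_⟩
    intro m hm1 hm2
    rcases Nat.lt_or_ge N m with h8 | h8
    · have h9 : m = N + 1 := by omega
      subst h9
      apply mul_right_cancel₀ hsqc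
      rw [← h7, hsplit]
    · rw [h6 m hm1 h8, ps_congr hlow i χ hm1 h8]

theorem t_gen (hPLB : S_PLB) (hGSL : S_GSL) (hCN : S_CN2) (hRPW : S_RPW) (hCIR : S_CIR) (hEXP : S_EXPO)
    (hTGT : S_TGT) (hNUM : S_NUM) : GEN := by
  classical
  intro r₀ B ϑ K hpar
  have hκ : 0 < kap ϑ K := by
    unfold kap
    apply lt_min (by norm_num)
    have hK0 : (0 : ℝ) < K := by exact_mod_cast (by have := hpar.K3; omega : 0 < K)
    have h1 := hpar.K1
    have h2 : 1 / (K : ℝ) < 1 / 2 - ϑ := by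
      rw [div_lt_iff₀ hK0]
      linarith
    linarith
  obtain ⟨M₀, hM3, hNUM⟩ := hNUM r₀ B (kap ϑ K) hpar.r0 hpar.B0 hκ (min_le_left _ _)
  refine ⟨M₀, hM3, ?_⟩
  intro F _ _ ι p hloc ν M hν hM D ε hdat
  have hq2 := two_le_qq (F := F)
  have hM3' : 3 ≤ M := by omega
  have hnum := hNUM M hM (qq F) ν hq2 hν
  have hpos : ∀ (i : ι) (Q : F[X]) (l : ℕ) (χ : F[X] → ℂ), Prim Q l χ → 1 ≤ D i χ := by
    intro i Q l χ hχ
    refine le_trans ?_ (hdat.deg i Q l χ hχ)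
    have h1 := le_max_left M (l + 1)
    have : 9 * 1 ≤ ν * (Q.natDegree + max M (l + 1) - 2) := Nat.mul_le_mul hν (by omega)
    omega
  -- the beginning
  have h0 : Inv F ι B (kap ϑ K) ν M D ε p 0 (fun _ _ => 0) := by
    refine ⟨?_, ?_, ?_⟩
    · intro P i h1 h2 h3
      have := h2.natDegree_pos
      omega
    · intro i Q l χ m h1 h2 h3
      omega
    · intro i Q l χ h1 h2
      have := hpos i Q l χ h1
      omega
  -- the sequence
  let T : ℕ → Type := fun N => {a : F[X] → ι → ℝ // Inv F ι B (kap ϑ K) ν M D ε p N a}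
  have hstep : ∀ (N : ℕ) (a : T N), ∃ a' : T (N + 1), ∀ P : F[X], P.natDegree ≤ N → a.1 P = a'.1 P := by
    intro N a
    obtain ⟨a', h1, h2⟩ := step hPLB hGSL hCN hRPW hCIR hEXP hTGT hpar hloc hν hM3' hnum hdat a.2
    exact ⟨⟨a', h2⟩, h1⟩
  choose nxt hnxt using hstep
  let A : (N : ℕ) → T N := fun N => Nat.rec (motive := T) ⟨fun _ _ => 0, h0⟩ (fun N a => nxt N a) N
  have hA : ∀ N : ℕ, ∀ P : F[X], P.natDegree ≤ N → (A N).1 P = (A (N + 1)).1 P := fun N P hP => hnxt N (A N) P hP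
  have hA2 : ∀ (N k : ℕ) (P : F[X]), P.natDegree ≤ N → (A N).1 P = (A (N + k)).1 P := by
    intro N k P hP
    induction k with
    | zero => rfl
    | succ k ih => rw [ih, ← Nat.add_assoc]; exact hA (N + k) P (by omega)
  let a : F[X] → ι → ℝ := fun P => (A P.natDegree).1 P
  have ha : ∀ (N : ℕ) (P : F[X]), P.natDegree ≤ N → (A N).1 P = a P := by
    intro N P hP
    have := hA2 P.natDegree (N - P.natDegree) P le_rfl
    rw [Nat.add_sub_cancel' hP] at this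
    exact this.symm
  have hinv : ∀ N : ℕ, Inv F ι B (kap ϑ K) ν M D ε p N a := fun N => inv_congr (fun P hP => ha N P hP) (A N).2
  refine ⟨a, ?_, ?_⟩
  · intro P i h1 h2
    have h3 := (hinv P.natDegree).small P i h1 h2 le_rfl
    have h4 : 1 ≤ P.natDegree := h2.natDegree_pos
    exact ⟨h3.trans (al_le hq2 hpar.r0 hν hnum h4), h3.trans (hnum.sm _ h4)⟩
  · intro i Q l χ hχ
    obtain ⟨b, hb1, hb2, hb3⟩ := (hinv (D i χ)).pol i Q l χ hχ (by omega)
    refine ⟨b, hb1, ?_⟩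
    intro N
    obtain ⟨b', hb1', hb2', hb3'⟩ := (hinv (N + D i χ)).pol i Q l χ hχ (by omega)
    have e : b = b' := by
      refine uni_unique (s := ps p a i χ) hb1 hb1' hb2 hb2' ?_ ?_
      · intro n h1 h2
        exact hb3 n h1 (by omega)
      · intro n h1 h2
        exact hb3' n h1 (by omega)
    rw [e]
    intro n h1 h2
    exact hb3' n h1 (by omega)

end Step

end Pool.Agent.Q284.GE
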