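import Pool.Agent.Q284.GE.Stm
import Pool.Agent.Q284.PS.Basic

/-!
# Project GE: the construction
-/

set_option autoImplicit false

open Finset Polynomial ComplexConjugate
open Pool.Agent.H341R2.Sharp (Mon mem_Mon)

namespace Pool.Agent.Q284.GE

open Pool.Agent.Q284.PS (Prim Hay CM PD PI qq mem_PI norm_le_one)

section Basic

variable {F : Type} [Field F] [Fintype F] {ι : Type}

theorem mem_PD {k : ℕ} (hk : 1 ≤ k) {P : F[X]} : P ∈ PD F k ↔ P.Monic ∧ Irreducible P ∧ P.natDegree ∣ k := by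
  classical
  unfold PD
  rw [mem_filter, mem_biUnion]
  constructor
  · rintro ⟨⟨n, _, h1⟩, h2, h3⟩
    exact ⟨(mem_Mon.1 h1).1, h2, h3⟩
  · rintro ⟨h1, h2, h3⟩
    exact ⟨⟨P.natDegree, mem_range.2 (Nat.lt_succ_of_le (Nat.le_of_dvd hk h3)), mem_Mon.2 ⟨h1, rfl⟩⟩, h2, h3⟩

theorem two_le_qq : 2 ≤ qq F := by
  unfold qq
  exact_mod_cast Fintype.one_lt_card

theorem ps_split {p : ι → F[X] → (ι → ℝ) → ℕ → ℝ} {a : F[X] → ι → ℝ} {i : ι} {χ : F[X] → ℂ} {m : ℕ} (hm : 1 ≤ m)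
    (h1 : ∀ P ∈ PI F m, p i P (a P) 1 = a P i) :
    ps p a i χ m * (Real.sqrt (qq F) : ℂ) ^ m = m * ∑ P ∈ PI F m, (a P i : ℂ) * χ P + pw p a i χ m := by
  classical
  have hq : 0 < Real.sqrt (qq F) := Real.sqrt_pos.2 (by have := two_le_qq (F := F); linarith)
  have hqc : (Real.sqrt (qq F) : ℂ) ^ m ≠ 0 := by
    apply pow_ne_zero
    exact_mod_cast hq.ne'
  unfold ps pw
  rw [div_mul_cancel₀ _ hqc, ← sum_filter_add_sum_filter_not (PD F m) (fun P => P.natDegree < m), add_comm]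
  congr 1
  have e : (PD F m).filter (fun P => ¬ P.natDegree < m) = PI F m := by
    ext P
    rw [mem_filter, mem_PD hm, mem_PI]
    constructor
    · rintro ⟨⟨h1, h2, h3⟩, h4⟩
      exact ⟨h1, le_antisymm (Nat.le_of_dvd hm h3) (not_lt.1 h4), h2⟩
    · rintro ⟨h1, h2, h3⟩
      exact ⟨⟨h1, h3, by rw [h2]⟩, by omega⟩
  rw [e, mul_sum]
  apply sum_congr rfl
  intro P hP
  have h2 := (mem_PI.1 hP).2.1
  rw [h2, Nat.div_self hm, h1 P hP, pow_one]
  ring

theorem ps_congr {p : ι → F[X] → (ι → ℝ) → ℕ → ℝ} {a a' : F[X] → ι → ℝ} {N : ℕ}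
    (h : ∀ P : F[X], P.natDegree ≤ N → a P = a' P) (i : ι) (χ : F[X] → ℂ) {m : ℕ} (h1 : 1 ≤ m) (hm : m ≤ N) :
    ps p a i χ m = ps p a' i χ m := by
  unfold ps
  congr 1
  apply sum_congr rfl
  intro P hP
  rw [h P ((Nat.le_of_dvd h1 ((mem_PD h1).1 hP).2.2).trans hm)]

theorem pw_congr {p : ι → F[X] → (ι → ℝ) → ℕ → ℝ} {a a' : F[X] → ι → ℝ} {m : ℕ}
    (h : ∀ P : F[X], P.natDegree < m → a P = a' P) (i : ι) (χ : F[X] → ℂ) :
    pw p a i χ m = pw p a' i χ m := by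
  classical
  unfold pw
  apply sum_congr rfl
  intro P hP
  rw [h P (mem_filter.1 hP).2]

theorem ps_conj {p : ι → F[X] → (ι → ℝ) → ℕ → ℝ} {a : F[X] → ι → ℝ} (i : ι) (χ : F[X] → ℂ) (m : ℕ) :
    ps p a i (fun f => conj (χ f)) m = conj (ps p a i χ m) := by
  unfold ps
  rw [map_div₀, map_pow, Complex.conj_ofReal, map_sum]
  congr 1
  apply sum_congr rfl
  intro P _
  rw [map_mul, map_mul, map_pow, Complex.conj_ofReal, map_natCast]

theorem pw_conj {p : ι → F[X] → (ι → ℝ) → ℕ → ℝ} {a : F[X] → ι → ℝ} (i : ι) (χ : F[X] → ℂ) (m : ℕ) :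
    pw p a i (fun f => conj (χ f)) m = conj (pw p a i χ m) := by
  classical
  unfold pw
  rw [map_sum]
  apply sum_congr rfl
  intro P _
  rw [map_mul, map_mul, map_pow, Complex.conj_ofReal, map_natCast]

omit [Fintype F] in
theorem hay_conj {Q : F[X]} {l : ℕ} {χ : F[X] → ℂ} (h : Hay Q l χ) : Hay Q l (fun f => conj (χ f)) := by
  refine ⟨h.monic, ?_, ?_, ?_, ?_, ?_, ?_⟩
  · intro f hf
    show conj (χ f) = 0
    rw [h.off f hf, map_zero]
  · show conj (χ 1) = 1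
    rw [h.one, map_one]
  · intro f g hf hg
    show conj (χ (f * g)) = _
    rw [h.mul f g hf hg, map_mul]
  · intro f hf hc
    rw [RCLike.norm_conj]
    exact h.norm f hf hc
  · intro f hf hc
    show conj (χ f) = 0
    rw [h.zero f hf hc, map_zero]
  · intro f g hf hg h1 h2
    show conj (χ f) = conj (χ g)
    rw [h.per f g hf hg h1 h2]

omit [Fintype F] in
theorem prim_conj {Q : F[X]} {l : ℕ} {χ : F[X] → ℂ} (h : Prim Q l χ) : Prim Q l (fun f => conj (χ f)) := by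
  refine ⟨hay_conj h.1, ?_⟩
  intro Q' l' χ' h1 h2 h3 h4
  apply h.2 Q' l' (fun f => conj (χ' f)) (hay_conj h1) h2 h3
  intro f hf hc
  have := h4 f hf hc
  show χ f = conj (χ' f)
  rw [← this, Complex.conj_conj]

end Basic

section Newton

theorem uni_unique {D : ℕ} {ε : ℂ} {b b' : ℂ[X]} {s : ℕ → ℂ} (hb : Uni D ε b) (hb' : Uni D ε b')
    (h0 : ∀ n : ℕ, 2 * n = D → b.coeff n = 0) (h0' : ∀ n : ℕ, 2 * n = D → b'.coeff n = 0)
    (h1 : ∀ n : ℕ, 1 ≤ n → 2 * n < D → (n : ℂ) * b.coeff n = ∑ m ∈ Icc 1 n, s m * b.coeff (n - m))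
    (h1' : ∀ n : ℕ, 1 ≤ n → 2 * n < D → (n : ℂ) * b'.coeff n = ∑ m ∈ Icc 1 n, s m * b'.coeff (n - m)) :
    b = b' := by
  have key : ∀ n : ℕ, 2 * n < D → b.coeff n = b'.coeff n := by
    intro n
    induction n using Nat.strong_induction_on with
    | _ n ih =>
      intro hn
      rcases Nat.eq_zero_or_pos n with rfl | hp
      · rw [hb.zero, hb'.zero]
      · have e1 := h1 n hp hn
        have e2 := h1' n hp hn
        have e3 : ∑ m ∈ Icc 1 n, s m * b.coeff (n - m) = ∑ m ∈ Icc 1 n, s m * b'.coeff (n - m) := by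
          apply sum_congr rfl
          intro m hm
          rw [mem_Icc] at hm
          rw [ih (n - m) (by omega) (by omega)]
        have hn0 : (n : ℂ) ≠ 0 := by exact_mod_cast hp.ne'
        apply mul_left_cancel₀ hn0
        rw [e1, e2, e3]
  ext n
  rcases lt_trichotomy (2 * n) D with h | h | h
  · exact key n h
  · rw [h0 n h, h0' n h]
  · rcases le_or_gt n D with h2 | h2
    · have e1 := hb.fe (D - n) (by omega)
      have e2 := hb'.fe (D - n) (by omega)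
      have e3 : D - (D - n) = n := by omega
      rw [e3] at e1 e2
      rw [e1, e2, key (D - n) (by omega)]
    · rw [coeff_eq_zero_of_natDegree_lt (by rw [hb.deg]; exact h2),
        coeff_eq_zero_of_natDegree_lt (by rw [hb'.deg]; exact h2)]

theorem newt_unique {b : ℂ[X]} {s s' : ℕ → ℂ} {N : ℕ} (hb : b.coeff 0 = 1) (h : Newt s b N) (h' : Newt s' b N) :
    ∀ m : ℕ, 1 ≤ m → m ≤ N → s m = s' m := by
  intro m
  induction m using Nat.strong_induction_on with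
  | _ m ih =>
    intro h1 h2
    have e1 := h m h1 h2
    have e2 := h' m h1 h2
    rw [e1] at e2
    have hm : m ∈ Icc 1 m := mem_Icc.2 ⟨h1, le_rfl⟩
    rw [← sum_erase_add _ _ hm, ← sum_erase_add _ _ hm] at e2
    have e3 : ∑ x ∈ (Icc 1 m).erase m, s x * b.coeff (m - x) = ∑ x ∈ (Icc 1 m).erase m, s' x * b.coeff (m - x) := by
      apply sum_congr rfl
      intro x hx
      rw [mem_erase, mem_Icc] at hx
      rw [ih x (by omega) hx.2.1 (by omega)]
    rw [e3] at e2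
    have e4 := add_left_cancel e2
    rw [Nat.sub_self, hb, mul_one, mul_one] at e4
    exact e4

theorem uni_conj {D : ℕ} {ε : ℂ} {b : ℂ[X]} (h : Uni D ε b) : Uni D (conj ε) (b.map (starRingEnd ℂ)) := by
  refine ⟨?_, ?_, ?_, ?_⟩
  · rw [natDegree_map]
    exact h.deg
  · rw [coeff_map, h.zero, map_one]
  · intro k hk
    rw [coeff_map, coeff_map, h.fe k hk, map_mul]
  · intro z hz
    have h1 : b.eval (conj z) = 0 := by
      have h2 : (b.map (starRingEnd ℂ)).eval (conj (conj z)) = conj (b.eval (conj z)) := by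
        rw [eval_map, eval₂_hom]
      rw [Complex.conj_conj, hz] at h2
      have h3 := congrArg conj h2
      rw [map_zero, Complex.conj_conj] at h3
      exact h3.symm
    have := h.root _ h1
    rwa [RCLike.norm_conj] at this

theorem newt_conj {s : ℕ → ℂ} {b : ℂ[X]} {N : ℕ} (h : Newt s b N) :
    Newt (fun m => conj (s m)) (b.map (starRingEnd ℂ)) N := by
  intro n h1 h2
  rw [coeff_map]
  have := congrArg conj (h n h1 h2)
  rw [map_mul, map_natCast, map_sum] at this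
  rw [this]
  apply sum_congr rfl
  intro m _
  rw [map_mul, coeff_map]

theorem newt_congr {s s' : ℕ → ℂ} {b : ℂ[X]} {N : ℕ} (h : Newt s b N) (hs : ∀ m, 1 ≤ m → m ≤ N → s m = s' m) :
    Newt s' b N := by
  intro n h1 h2
  rw [h n h1 h2]
  apply sum_congr rfl
  intro m hm
  rw [mem_Icc] at hm
  rw [hs m hm.1 (by omega)]

end Newton

section Inv

variable {F : Type} [Field F] [Fintype F] {ι : Type}

theorem inv_congr {B κ : ℝ} {ν M : ℕ} {D : ι → (F[X] → ℂ) → ℕ} {ε : ι → (F[X] → ℂ) → ℂ}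
    {p : ι → F[X] → (ι → ℝ) → ℕ → ℝ} {N : ℕ} {a a' : F[X] → ι → ℝ}
    (h : ∀ P : F[X], P.natDegree ≤ N → a P = a' P) (hi : Inv F ι B κ ν M D ε p N a) :
    Inv F ι B κ ν M D ε p N a' := by
  refine ⟨?_, ?_, ?_⟩
  · intro P i h1 h2 h3
    rw [← h P h3]
    exact hi.small P i h1 h2 h3
  · intro i Q l χ m h1 h2 h3 h4
    rw [← ps_congr h i χ h2 h3]
    exact hi.free i Q l χ m h1 h2 h3 h4
  · intro i Q l χ h1 h2
    obtain ⟨b, h3, h4, h5⟩ := hi.pol i Q l χ h1 h2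
    exact ⟨b, h3, h4, newt_congr h5 (fun m hm1 hm2 => ps_congr h i χ hm1 hm2)⟩

/-- the polynomial, if the sum condition holds -/
theorem exists_pol (hCIR : S_CIR) (hEXP : S_EXPO) {r₀ B κ : ℝ} {ν M : ℕ} (hν : 9 ≤ ν) (hM : 3 ≤ M)
    (hnum : Num (qq F) r₀ B κ ν M) {D : ι → (F[X] → ℂ) → ℕ} {ε : ι → (F[X] → ℂ) → ℂ} (hdat : Dat F ι ν M D ε)
    (hκ : 0 < κ) {i : ι} {Q : F[X]} {l : ℕ} {χ : F[X] → ℂ} (hχ : Prim Q l χ) {s : ℕ → ℂ}
    (hs : ∀ m : ℕ, 1 ≤ m → 2 * m < D i χ → ‖s m‖ ≤ Lm (qq F) ν M (Q.natDegree + l) m + Rm (qq F) B κ M m) :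
    ∃ b : ℂ[X], Uni (D i χ) (ε i χ) b ∧ (∀ n : ℕ, 2 * n = D i χ → b.coeff n = 0) ∧
      ∀ n : ℕ, 1 ≤ n → 2 * n < D i χ → (n : ℂ) * b.coeff n = ∑ m ∈ Icc 1 n, s m * b.coeff (n - m) := by
  have hdeg := hdat.deg i Q l χ hχ
  have h1 : ν * (Q.natDegree + l - 1) ≤ D i χ := by
    refine le_trans (Nat.mul_le_mul_left ν ?_) hdeg
    have := le_max_right M (l + 1)
    omega
  have h2 : ν * (M - 2) ≤ D i χ := by
    refine le_trans (Nat.mul_le_mul_left ν ?_) hdeg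
    have := le_max_left M (l + 1)
    omega
  have h3 : 1 ≤ D i χ := by
    refine le_trans ?_ h2
    have : 9 * 1 ≤ ν * (M - 2) := Nat.mul_le_mul hν (by omega)
    omega
  have hq2 := two_le_qq (F := F)
  have hρ : 1 < qq F ^ (κ / 2) := Real.one_lt_rpow (by linarith) (by linarith)
  obtain ⟨A, hA1, hA2, hA3, hA4⟩ := hEXP (D i χ) s (qq F ^ (κ / 2)) h3 hρ
    (hnum.est (Q.natDegree + l) (D i χ) h1 h2 (fun m => ‖s m‖) (fun m hm1 hm2 => ⟨norm_nonneg _, hs m hm1 hm2⟩))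
  obtain ⟨b, hb1, hb2, hb3⟩ := hCIR (D i χ) (ε i χ) A h3 (hdat.eps i χ) hA1 hA2 hA3
  refine ⟨b, hb1, hb3, ?_⟩
  intro n hn1 hn2
  rw [hb2 n hn2, hA4 n hn1 hn2]
  apply sum_congr rfl
  intro m hm
  rw [mem_Icc] at hm
  rw [hb2 (n - m) (by omega)]

end Inv

end Pool.Agent.Q284.GE
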