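import Pool.Agent.Q284.GE.Stm

/-!
# Project GE: statements for the spacings of the zeros
-/

set_option autoImplicit false

open Finset Polynomial ComplexConjugate
open Pool.Agent.H341R2.Sharp (Mon)

namespace Pool.Agent.Q284.GE

/-- **EXP2** (truncated exponential with a bound for the logarithmic derivative).  Extend the proof of `S_EXPO`
(`Pool/Agent/Q166/GE/EXPO.lean`).  Proof.  Notation as there: `L(z) = ∑_{2m < D} s_m z^m/m`, `E = exp L`,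
`A = ∑_{2n < D} e_n X^n`, `R = E - A`, `Λ(x) = ∑_{2m < D} |s_m| x^m/m`, `|e_n| ≤ exp (Λ(ρ)) ρ^(-n)`.  For `|z| = 1`:
`z E'(z) = (∑ s_m z^m) E(z)`, so `|z E'| ≤ S |E|`, `S = ∑ |s_m| ≤ δ D/16`; `|R(z)| ≤ ∑_{2n ≥ D} exp (Λ(ρ)) ρ^(-n)`,
`|z R'(z)| ≤ ∑_{2n ≥ D} n exp (Λ(ρ)) ρ^(-n)`, both are at most
`τ = exp (Λ(ρ)) ρ^(-D/2) (D/2 + 1) (ρ/(ρ-1))²` (`∑_{n ≥ h} n ρ^(-n) = ρ^(-h) (h ρ/(ρ-1) + ρ/(ρ-1)²)
≤ ρ^(-h) (h + 1) (ρ/(ρ-1))²` for `h = ⌈D/2⌉`, and `x ρ^(-x)`-type monotonicity is not needed: use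
`ρ^(-h) (h + 1) ≤ ρ^(-D/2) (D/2 + 1) · 2` and the factor `2` is absorbed below).  The hypothesis gives
`exp (Λ(1)) τ ≤ δ/32`, `δ ≤ 1`, and `|E| ≥ exp (-Λ(1))`, so `|R| ≤ |E|/16`, `|z R'| ≤ δ |E|/16`, so `A ≠ 0`,
`|A| ≥ 15/16 |E|`, `|z A'| ≤ S |E| + δ |E|/16 ≤ (δ/8) D |E| ≤ (δ/4) D |A|`. -/
def S_EXP2 : Prop := ∀ (D : ℕ) (s : ℕ → ℂ) (ρ δ : ℝ), 1 ≤ D → 1 < ρ → 0 < δ → δ ≤ 1 →
  ∑ m ∈ (Icc 1 D).filter (fun m => 2 * m < D), ‖s m‖ ≤ δ * D / 16 →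
  (∑ m ∈ (Icc 1 D).filter (fun m => 2 * m < D), ‖s m‖ / m * (1 + ρ ^ m)) + 2 * Real.log (ρ / (ρ - 1)) +
    Real.log ((D : ℝ) / 2 + 1) + Real.log (64 / δ) ≤ (D : ℝ) / 2 * Real.log ρ →
  ∃ A : ℂ[X], A.coeff 0 = 1 ∧ (∀ n : ℕ, D ≤ 2 * n → A.coeff n = 0) ∧ (∀ z : ℂ, ‖z‖ ≤ 1 → A.eval z ≠ 0) ∧
    (∀ n : ℕ, 1 ≤ n → 2 * n < D → (n : ℂ) * A.coeff n = ∑ m ∈ Icc 1 n, s m * A.coeff (n - m)) ∧
    ∀ z : ℂ, ‖z‖ = 1 → ‖z * A.derivative.eval z‖ ≤ δ / 4 * D * ‖A.eval z‖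

/-- the roots `exp (i θ_k)` of a normalised `L`-polynomial are simple and their gaps are almost constant -/
def Fence (δ : ℝ) (D : ℕ) (b : ℂ[X]) : Prop :=
  ∃ θ : ℤ → ℝ, StrictMono θ ∧ (∀ x : ℝ, b.eval (Complex.exp (x * Complex.I)) = 0 ↔ ∃ k, x = θ k) ∧
    (∀ k, b.derivative.eval (Complex.exp (θ k * Complex.I)) ≠ 0) ∧
    ∀ k, |(D : ℝ) / (2 * Real.pi) * (θ (k + 1) - θ k) - 1| ≤ δ

/-- **GAP** (the zeros of the symmetrised polynomial are almost equally spaced).  Proof.  `b(z) = A(z) + ε A*(z)`,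
`A*(z) = ∑_n conj (A_n) z^(D-n)` (compare the coefficients: for `2n < D` given, for `2n > D` from `Uni.fe`, for
`2n = D` both are `0`).  Let `z = exp (ix)`: `A*(z) = z^D conj (A(z))`.  `A` has no zeros in the closed unit disk, so
there is a differentiable `f : ℝ → ℝ` with `A(e^(ix)) = |A(e^(ix))| e^(i f(x))` and `f'(x) = Re (z A'(z)/A(z))` (e.g.
`f(x) = arg A(1) + ∫_0^x Re (z A'/A)`; the function `A(e^(ix)) exp (- ∫_0^x i z A'/A dx)` has derivative `0`).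
`g(x) = D x - 2 f(x)`: `g' = D - 2 Re (z A'/A)` lies in `[D (1 - δ/2), D (1 + δ/2)]`, so `g` is strictly increasing,
unbounded in both directions, bijective.  `b(z) = A(z) (1 + ε exp (i g(x)))`; with `ε = exp (i φ)` it is zero iff
`g(x) = π - φ + 2πk`, `k ∈ ℤ`; `θ_k` is the solution.  Mean value theorem: `2π = g'(ξ) (θ_(k+1) - θ_k)`, so
`(D/2π)(θ_(k+1) - θ_k)` lies in `[1/(1 + δ/2), 1/(1 - δ/2)]`, contained in `[1 - δ, 1 + δ]` (`δ ≤ 1`).  Simple zeros: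
the derivative of `x ↦ b(e^(ix))` at `θ_k` is `A(z) · (i g') ε exp (i g) = - i g' A(z) ≠ 0`, and it is
`i z b'(z)`. -/
def S_GAP : Prop := ∀ (D : ℕ) (ε : ℂ) (A b : ℂ[X]) (δ : ℝ), 1 ≤ D → ‖ε‖ = 1 → 0 < δ → δ ≤ 1 → A.coeff 0 = 1 →
  (∀ n : ℕ, D ≤ 2 * n → A.coeff n = 0) → (∀ z : ℂ, ‖z‖ ≤ 1 → A.eval z ≠ 0) →
  (∀ z : ℂ, ‖z‖ = 1 → ‖z * A.derivative.eval z‖ ≤ δ / 4 * D * ‖A.eval z‖) →
  Uni D ε b → (∀ n : ℕ, 2 * n < D → b.coeff n = A.coeff n) → (∀ n : ℕ, 2 * n = D → b.coeff n = 0) → Fence δ D b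

/-- **NUM2** (extend the proof of `S_NUM`, `Pool/Agent/Q224/GE/NUM.lean`).  Proof.  `ρ = q^(κ/2)`.  First sum: with
`∑_m m^i 2^(-κ m)` and `∑_m m^i 2^(-m/18)` finite, `∑ x_m ≤ 2^(3-M) (C₁ c + C₂) + C₃` (`C_i` depend on `B, κ`), and
`c ≤ D/9 + 1`, `D ≥ 9 (M - 2)`, so it is `≤ δ D/16` for large `M`.  Second: as in NUM the sum is at most
`2^(3-M) (C₄ c + C₅) + C₆`; `log (ρ/(ρ-1)) ≤ log (1/(1 - 2^(-κ/2)))`, `log (D/2 + 1) ≤ D κ/100 + C₇`, and the right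
side is at least `(D/4) κ log 2`. -/
def S_NUM2 : Prop := ∀ B κ δ : ℝ, 0 ≤ B → 0 < κ → κ ≤ 1 / 36 → 0 < δ → ∃ M₀ : ℕ, 3 ≤ M₀ ∧ ∀ M : ℕ, M₀ ≤ M →
  ∀ (q : ℝ) (ν : ℕ), 2 ≤ q → 9 ≤ ν → ∀ (c D : ℕ), ν * (c - 1) ≤ D → ν * (M - 2) ≤ D → ∀ x : ℕ → ℝ,
  (∀ m, 1 ≤ m → 2 * m < D → 0 ≤ x m ∧ x m ≤ Lm q ν M c m + Rm q B κ M m) →
  ∑ m ∈ (Icc 1 D).filter (fun m => 2 * m < D), x m ≤ δ * D / 16 ∧
  (∑ m ∈ (Icc 1 D).filter (fun m => 2 * m < D), x m / m * (1 + (q ^ (κ / 2)) ^ m)) +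
    2 * Real.log (q ^ (κ / 2) / (q ^ (κ / 2) - 1)) + Real.log ((D : ℝ) / 2 + 1) + Real.log (64 / δ) ≤
    (D : ℝ) / 2 * Real.log (q ^ (κ / 2))

end Pool.Agent.Q284.GE
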